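import Pool.Agent.P.MP_99f05c_an.Main

/-! Three-term asymptotics of the extremal value as `c → 1`. -/

set_option autoImplicit false

open Set Filter Complex
open scoped ENNReal Topology

namespace Pool.Agent.P.MP_99f05c_an.Asym

variable {ε : ℝ}

theorem log_bd (h0 : 0 < ε) (h1 : ε ≤ 1 / 16) :
    ε + ε ^ 2 / 2 - 2 * ε ^ 3 ≤ -Real.log (1 - ε) ∧ -Real.log (1 - ε) ≤ ε + ε ^ 2 / 2 + 2 * ε ^ 3 := by
  have h := Real.abs_log_sub_add_sum_range_le (x := ε) (by rw [abs_of_pos h0]; linarith) 2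
  simp only [Finset.sum_range_succ, Finset.range_zero, Finset.sum_empty, abs_of_pos h0] at h
  have h2 : ε ^ (2 + 1) / (1 - ε) ≤ 2 * ε ^ 3 := by
    show ε ^ 3 / (1 - ε) ≤ _
    rw [div_le_iff₀ (by linarith)]
    have : 0 < ε ^ 3 := by positivity
    nlinarith [mul_le_mul_of_nonneg_left h1 this.le]
  have := abs_le.1 (h.trans h2)
  norm_num at this
  constructor <;> linarith [this.1, this.2]

theorem pow_eq (h1 : ε < 1) (k : ℕ) :
    (1 - ε) ^ k = Real.exp (-(-Real.log (1 - ε) * (k + 1))) / (1 - ε) := by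
  have hs : 0 < 1 - ε := by linarith
  rw [eq_div_iff hs.ne', ← pow_succ, neg_mul, neg_neg, ← Nat.cast_succ, mul_comm,
    Real.exp_nat_mul, Real.exp_log hs]

theorem e_bd : 2 < Real.exp 1 ∧ Real.exp 1 < 3 :=
  ⟨by linarith [Real.exp_one_gt_d9], by linarith [Real.exp_one_lt_d9]⟩

theorem Q_le (h0 : 0 < ε) (h1 : ε ≤ 1 / 16) (k : ℕ) :
    (k + 1) * (1 - ε) ^ k ≤ 1 / (Real.exp 1 * ε) + 1 / (2 * Real.exp 1) + 2 * ε := by
  obtain ⟨l1, -⟩ := log_bd h0 h1
  obtain ⟨e1, -⟩ := e_bd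
  rw [pow_eq (by linarith)]
  generalize -Real.log (1 - ε) = l at l1 ⊢
  have p2 : 0 < ε ^ 2 := by positivity
  have hl : ε ≤ l := by nlinarith
  have hl0 : 0 < l := by linarith
  have a1 : l * (k + 1) * Real.exp 1 ≤ Real.exp (l * (k + 1)) := by
    have := Real.add_one_le_exp (l * (k + 1) - 1)
    rw [Real.exp_sub, le_div_iff₀ (Real.exp_pos _)] at this
    linarith
  have a2 : (k + 1) * Real.exp (-(l * (k + 1))) ≤ 1 / (Real.exp 1 * l) := by
    rw [Real.exp_neg, ← div_eq_mul_inv, div_le_div_iff₀ (Real.exp_pos _) (by positivity)]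
    linarith
  have a3 : ε ≤ (1 + ε / 2 + 4 * ε ^ 2) * (l * (1 - ε)) := by
    have b1 : ε * (1 - ε / 2 - 3 * ε ^ 2) ≤ l * (1 - ε) := by
      have := mul_le_mul_of_nonneg_right l1 (show 0 ≤ 1 - ε by linarith)
      nlinarith [mul_pos h0 p2, mul_pos p2 p2]
    have b2 : 1 ≤ (1 + ε / 2 + 4 * ε ^ 2) * (1 - ε / 2 - 3 * ε ^ 2) := by
      nlinarith [mul_pos h0 p2, mul_pos p2 p2, mul_le_mul_of_nonneg_left h1 p2.le,
        mul_le_mul_of_nonneg_left h1 (mul_pos h0 p2).le]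
    calc ε = ε * 1 := (mul_one _).symm
      _ ≤ ε * ((1 + ε / 2 + 4 * ε ^ 2) * (1 - ε / 2 - 3 * ε ^ 2)) := by gcongr
      _ = (1 + ε / 2 + 4 * ε ^ 2) * (ε * (1 - ε / 2 - 3 * ε ^ 2)) := by ring
      _ ≤ _ := by gcongr
  have hs : 0 < 1 - ε := by linarith
  calc _ = (k + 1) * Real.exp (-(l * (k + 1))) / (1 - ε) := by ring
    _ ≤ 1 / (Real.exp 1 * l) / (1 - ε) := by gcongr
    _ = 1 / Real.exp 1 * (1 / (l * (1 - ε))) := by field_simp
    _ ≤ 1 / Real.exp 1 * ((1 + ε / 2 + 4 * ε ^ 2) / ε) := by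
      gcongr ?_ * ?_
      rw [div_le_div_iff₀ (by positivity) h0]
      linarith
    _ = 1 / (Real.exp 1 * ε) + 1 / (2 * Real.exp 1) + 4 / Real.exp 1 * ε := by field_simp
    _ ≤ _ := by
      gcongr
      rw [div_le_iff₀ (by positivity)]
      linarith

theorem Q_ge (h0 : 0 < ε) (h1 : ε ≤ 1 / 16) : ∃ n : ℕ, 1 / 2 ≤ n * ε ∧
    1 / (Real.exp 1 * ε) + 1 / (2 * Real.exp 1) - 3 * ε ≤ (n + 1) * (1 - ε) ^ n := by
  obtain ⟨l1, l2⟩ := log_bd h0 h1
  obtain ⟨e1, -⟩ := e_bd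
  simp only [pow_eq (show ε < 1 by linarith)]
  generalize -Real.log (1 - ε) = l at l1 l2 ⊢
  have p2 : 0 < ε ^ 2 := by positivity
  have hl : ε ≤ l := by nlinarith
  have hl' : l ≤ 4 / 3 * ε := by nlinarith
  have hl0 : 0 < l := by linarith
  have hs : 0 < 1 - ε := by linarith
  have b1 : (⌊1 / l⌋₊ : ℝ) ≤ 1 / l := Nat.floor_le (by positivity)
  have b2 := Nat.lt_floor_add_one (1 / l)
  generalize ⌊1 / l⌋₊ = n at b1 b2
  rw [le_div_iff₀ hl0] at b1
  rw [div_lt_iff₀ hl0] at b2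
  have hn : (0 : ℝ) ≤ n := by positivity
  refine ⟨n, by nlinarith, ?_⟩
  have a1 : (1 - l ^ 2) / Real.exp 1 ≤ l * (n + 1) * Real.exp (-(l * (n + 1))) := by
    have := Real.add_one_le_exp (1 - l * (n + 1))
    rw [sub_eq_neg_add 1, Real.exp_add] at this
    rw [div_le_iff₀ (Real.exp_pos _), mul_assoc]
    have h3 := mul_le_mul_of_nonneg_left this (show 0 ≤ l * (n + 1) by positivity)
    nlinarith
  have a3 : (1 + ε / 2 - 6 * ε ^ 2) * (l * (1 - ε)) ≤ ε * (1 - l ^ 2) := by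
    have c1 : l * (1 - ε) ≤ ε * (1 - ε / 2 + 2 * ε ^ 2) := by
      have := mul_le_mul_of_nonneg_right l2 hs.le
      nlinarith [mul_pos h0 p2, mul_pos p2 p2]
    have c2 : (1 + ε / 2 - 6 * ε ^ 2) * (1 - ε / 2 + 2 * ε ^ 2) ≤ 1 - l ^ 2 := by
      nlinarith [mul_pos h0 p2, mul_pos p2 p2, mul_le_mul_of_nonneg_left h1 p2.le]
    have c3 : 0 ≤ 1 + ε / 2 - 6 * ε ^ 2 := by nlinarith
    calc _ ≤ (1 + ε / 2 - 6 * ε ^ 2) * (ε * (1 - ε / 2 + 2 * ε ^ 2)) := by gcongr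
      _ = ε * ((1 + ε / 2 - 6 * ε ^ 2) * (1 - ε / 2 + 2 * ε ^ 2)) := by ring
      _ ≤ _ := by gcongr
  calc _ ≤ 1 / (Real.exp 1 * ε) + 1 / (2 * Real.exp 1) - 6 / Real.exp 1 * ε := by
        gcongr
        rw [div_le_iff₀ (by positivity)]
        linarith
    _ = 1 / Real.exp 1 * ((1 + ε / 2 - 6 * ε ^ 2) / ε) := by field_simp
    _ ≤ 1 / Real.exp 1 * ((1 - l ^ 2) / (l * (1 - ε))) := by
      gcongr ?_ * ?_
      rw [div_le_div_iff₀ h0 (by positivity)]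
      linarith
    _ = (1 - l ^ 2) / Real.exp 1 / (l * (1 - ε)) := by field_simp
    _ ≤ l * (n + 1) * Real.exp (-(l * (n + 1))) / (l * (1 - ε)) := by gcongr
    _ = _ := by field_simp

variable {L : ℝ}

theorem P1 (h0 : 0 < ε) (h1 : ε ≤ 1 / 16) (hL : 2 ≤ L) (hE : Real.exp (-L) = ε) (k : ℕ) :
    1 ≤ (k + 1) * (1 - ε) ^ k + 2 * (1 - (1 - 2 * ε / L) ^ (k + 1)) := by
  have hs : 0 < 1 - ε := by linarith
  have hL0 : 0 < L := by linarith
  have r1 : 2 * ε / L ≤ ε := by rw [div_le_iff₀ hL0]; nlinarith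
  have r0 : 0 < 2 * ε / L := by positivity
  have hk : (0 : ℝ) ≤ k := by positivity
  by_cases h : L ≤ 2 * ε * (k + 1)
  · have a1 := pow_le_pow_left₀ (by linarith) (Real.one_sub_le_exp_neg (2 * ε / L)) (k + 1)
    rw [← Real.exp_nat_mul] at a1
    have a2 : Real.exp (((k + 1 : ℕ) : ℝ) * -(2 * ε / L)) ≤ Real.exp (-1) := by
      rw [Real.exp_le_exp, mul_neg, neg_le_neg_iff, ← mul_div_assoc, le_div_iff₀ hL0]
      push_cast; linarith
    have a3 : Real.exp (-1) ≤ 1 / 2 := by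
      rw [Real.exp_neg, one_div]
      exact inv_anti₀ two_pos e_bd.1.le
    have : 0 ≤ (k + 1) * (1 - ε) ^ k := by positivity
    linarith
  · have a1 : (1 - 2 * ε / L) ^ (k + 1) ≤ 1 := pow_le_one₀ (by linarith) (by linarith)
    suffices 1 ≤ (k + 1) * (1 - ε) ^ k by linarith
    by_cases h' : (k + 1) * ε ≤ 1
    · have := one_add_mul_le_pow (show -2 ≤ -ε by linarith) k
      rw [← sub_eq_add_neg] at this
      have h3 := mul_le_mul_of_nonneg_left this (show (0 : ℝ) ≤ k + 1 by positivity)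
      nlinarith
    · have l2 := (log_bd h0 h1).2
      have p2 : 0 < ε ^ 2 := by positivity
      have a2 : ε ≤ (1 - ε) ^ k := by
        rw [pow_eq (by linarith), le_div_iff₀ hs]
        have : Real.exp (-L) ≤ Real.exp (-(-Real.log (1 - ε) * (k + 1))) := by
          rw [Real.exp_le_exp, neg_le_neg_iff]
          have : -Real.log (1 - ε) ≤ 2 * ε := by nlinarith
          have := mul_le_mul_of_nonneg_right this (show (0 : ℝ) ≤ k + 1 by positivity)
          linarith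
        nlinarith
      have h3 := mul_le_mul_of_nonneg_left a2 (show (0 : ℝ) ≤ k + 1 by positivity)
      linarith

theorem P2 (h0 : 0 < ε) (h1 : ε ≤ 1 / 16) (hL : 2 ≤ L) (k : ℕ) :
    (k + 1) * (1 - ε) ^ k + 2 * (1 - (1 - 2 * ε / L) ^ (k + 1))
      ≤ 1 / (Real.exp 1 * ε) + 1 / (2 * Real.exp 1) + 2 * ε + 16 / L := by
  have hs : 0 < 1 - ε := by linarith
  have hL0 : 0 < L := by linarith
  have r1 : 2 * ε / L ≤ ε := by rw [div_le_iff₀ hL0]; nlinarith
  have r0 : 0 < 2 * ε / L := by positivity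
  by_cases h : (k + 1) * ε ≤ 4
  · have a1 := one_add_mul_le_pow (show -2 ≤ -(2 * ε / L) by linarith) (k + 1)
    rw [← sub_eq_add_neg] at a1
    have a2 : ((k + 1 : ℕ) : ℝ) * (2 * ε / L) ≤ 8 / L := by
      rw [← mul_div_assoc]
      gcongr
      push_cast; linarith
    have a3 : 16 / L = 2 * (8 / L) := by ring
    linarith [Q_le h0 h1 k]
  · have a1 := p_le h0 (by linarith) k
    generalize ((k : ℝ) + 1) * ε = y at h a1
    have a2 : y * Real.exp (1 - y) ≤ 1 / 2 := by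
      have := Real.quadratic_le_exp_of_nonneg (show 0 ≤ y - 1 by linarith)
      rw [← neg_sub, Real.exp_neg, ← div_eq_mul_inv, div_le_iff₀ (Real.exp_pos _)]
      nlinarith
    obtain ⟨e1, e2⟩ := e_bd
    have a3 : 1 / (Real.exp 1 * ε * (1 - ε)) * (y * Real.exp (1 - y))
        ≤ 1 / (Real.exp 1 * ε) * (3 / 5) := by
      calc _ ≤ 1 / (Real.exp 1 * ε * (1 - ε)) * (1 / 2) := by gcongr
        _ = 1 / (Real.exp 1 * ε) * (1 / (2 * (1 - ε))) := by field_simp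
        _ ≤ _ := by
          gcongr ?_ * ?_
          rw [div_le_div_iff₀ (by positivity) (by norm_num)]
          linarith
    have a4 : 5 ≤ 1 / (Real.exp 1 * ε) := by
      rw [le_div_iff₀ (by positivity)]
      nlinarith
    have a5 : 0 ≤ (1 - 2 * ε / L) ^ (k + 1) := pow_nonneg (by linarith) _
    have a6 : 0 < 1 / (2 * Real.exp 1) := by positivity
    have a7 : 0 < 16 / L := by positivity
    linarith

theorem upper {c φ : ℝ} {f g : ℂ → ℂ} (hd : Dom c φ f g) (hf : f ∈ S1) (hg : g ∈ S1)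
    (hc : c ^ 2 = 1 - ε) (h0 : 0 < ε) (h1 : ε ≤ 1 / 16) (hL : 2 ≤ L) (hE : Real.exp (-L) = ε) :
    1 ≤ φ ^ 2 * (1 / (Real.exp 1 * ε) + 1 / (2 * Real.exp 1) + 2 * ε + 16 / L) := by
  obtain ⟨a, ha, ha1⟩ := exists_unit1 hf
  obtain ⟨b, hb, hb1⟩ := exists_unit1 hg
  have hL0 : 0 < L := by linarith
  have r1 : 2 * ε / L ≤ ε := by rw [div_le_iff₀ hL0]; nlinarith
  have r0 : 0 < 2 * ε / L := by positivity
  have k1 := hd.tsum_le ha hb (t := 1 - ε) hc.le (by linarith)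
  have k2 := tail_le hd ha hb ha1 hb1 (ρ := 1 - 2 * ε / L) (by linarith) (by linarith)
  have sm : ∀ {f : ℂ → ℂ} {a : ℕ → ℂ}, Rep f a → Unit1 a → HasSum (fun k => ‖a k‖ ^ 2 / (k + 1) *
      ((k + 1) * (1 - ε) ^ k + 2 * (1 - (1 - 2 * ε / L) ^ (k + 1))))
      (∑' k, ‖a k‖ ^ 2 * (1 - ε) ^ k +
        2 * (1 - ∑' k, ‖a k‖ ^ 2 / (k + 1) * (1 - 2 * ε / L) ^ (k + 1))) := fun {f a} ha ha1 => by
    have s1 := (ha.sq_hasSum (t := 1 - ε) (by linarith) (by linarith)).summable.hasSum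
    have s2 : Summable fun k => ‖a k‖ ^ 2 / (k + 1) * (1 - 2 * ε / L) ^ (k + 1) :=
      Summable.of_nonneg_of_le (fun k => mul_nonneg (by positivity) (pow_nonneg (by linarith) _))
        (fun k => mul_le_of_le_one_right (by positivity) (pow_le_one₀ (by linarith) (by linarith)))
        ha1.summable
    exact hasSum_congr (s1.add ((ha1.sub s2.hasSum).mul_left 2)) fun k => by field_simp
  have k3 := hasSum_le (fun k => le_mul_of_one_le_right (by positivity) (P1 h0 h1 hL hE k)) ha1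
    (sm ha ha1)
  have k4 := hasSum_le (fun k => mul_le_mul_of_nonneg_left (P2 h0 h1 hL k) (by positivity))
    (sm hb hb1) (hb1.mul_right _)
  have k5 := mul_le_mul_of_nonneg_left k4 (sq_nonneg φ)
  linarith

theorem test {c : ℝ} (hc0 : 0 < c) (hc1 : c < 1) (n N : ℕ) (hN : N ≠ 0)
    (hn : 1 / 4 ≤ n * (1 - c)) :
    Fr c ^ 2 * ((1 + 1 / (16 * (N + 1))) * ((n + 1) * (c ^ 2) ^ n)) ≤ (1 + c ^ N / 4) ^ 2 := by
  have hr : Rep (fun z : ℂ => 1 + z ^ N / 4)
      (fun k => (if k = 0 then 1 else 0) + if k = N then 1 / 4 else 0) := fun z _ =>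
    hasSum_congr ((hasSum_ite_eq 0 (1 : ℂ)).add (hasSum_ite_eq N (z ^ N / 4))) fun k => by
      beta_reduce
      by_cases a : k = 0 <;> by_cases b : k = N
      · exact absurd (b.symm.trans a) hN
      · simp [a, hN.symm]
      · subst b; simp [hN]; ring
      · simp [a, b]
  have hx : (0 : ℝ) < 1 + 1 / (16 * (N + 1)) := by positivity
  have hs := hr.scale hx (hasSum_congr ((hasSum_ite_eq 0 (1 : ℝ)).add
    (hasSum_ite_eq N (1 / (16 * (N + 1)) : ℝ))) fun k => by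
      split_ifs with a b b
      · exact absurd (b.symm.trans a) hN
      · simp [a]
      · rw [b]; norm_num; field_simp
      · simp)
  generalize (1 : ℝ) + 1 / (16 * (N + 1)) = x at hx hs ⊢
  have hn1 : (0 : ℝ) < n + 1 := by positivity
  have s1 : 0 < √((n : ℝ) + 1) := Real.sqrt_pos.2 hn1
  have s2 : 0 < √x := Real.sqrt_pos.2 hx
  have h := Fr_le (c := c) (φ := (1 + c ^ N / 4) / (√x * (√(n + 1) * c ^ n))) (by positivity) hs
    (monomial_mem n) fun z z1 z2 => by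
      have b1 : ‖1 + z ^ N / 4‖ ≤ 1 + ‖z‖ ^ N / 4 := by
        refine (norm_add_le _ _).trans_eq ?_
        simp
      simp only [norm_mul, norm_real, Real.norm_eq_abs, abs_of_pos s1, norm_pow, abs_inv,
        abs_of_pos s2]
      generalize ‖z‖ = r at z1 z2 b1
      obtain ⟨θ, t0, t1, rfl⟩ : ∃ θ : ℝ, 0 ≤ θ ∧ θ ≤ 1 ∧ r = (1 - θ) * c + θ * 1 :=
        ⟨(r - c) / (1 - c), div_nonneg (by linarith) (by linarith),
          (div_le_one (by linarith)).2 (by linarith), by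
            have : 1 - c ≠ 0 := by linarith
            field_simp; ring⟩
      have b2 := (convexOn_pow N).2 (show c ∈ Ici 0 from hc0.le) (show (1 : ℝ) ∈ Ici 0 by simp)
        (show 0 ≤ 1 - θ by linarith) t0 (by ring)
      simp only [smul_eq_mul, one_pow] at b2
      have q0 : 0 ≤ θ * (1 - c) := mul_nonneg t0 (by linarith)
      have b3 := one_add_mul_le_pow (show -2 ≤ θ * (1 - c) / c by
        have : 0 ≤ θ * (1 - c) / c := by positivity
        linarith) n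
      have b4 : θ * (1 - c) ≤ θ * (1 - c) / c := by rw [le_div_iff₀ hc0]; nlinarith
      have b5 : θ / 4 ≤ n * (θ * (1 - c) / c) := by
        have := mul_le_mul_of_nonneg_left b4 (show (0 : ℝ) ≤ n by positivity)
        nlinarith
      have b6 : 0 < c ^ N := by positivity
      have e : 1 + θ * (1 - c) / c = ((1 - θ) * c + θ * 1) / c := by field_simp; ring
      rw [e, div_pow] at b3
      have e2 : (1 + c ^ N / 4) / (√x * (√(n + 1) * c ^ n)) *
          (√(n + 1) * ((1 - θ) * c + θ * 1) ^ n)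
          = (√x)⁻¹ * ((1 + c ^ N / 4) * (((1 - θ) * c + θ * 1) ^ n / c ^ n)) := by field_simp
      rw [e2]
      gcongr
      nlinarith
  have h2 := pow_le_pow_left₀ (Fr_nonneg c) h 2
  rw [div_pow, le_div_iff₀ (by positivity), mul_pow, mul_pow, Real.sq_sqrt hx.le,
    Real.sq_sqrt hn1.le, ← pow_mul, mul_comm n, pow_mul] at h2
  exact h2

theorem lower {c : ℝ} (hc0 : 0 < c) (hc1 : c < 1) (hc : c ^ 2 = 1 - ε) (h0 : 0 < ε)
    (h1 : ε ≤ 1 / 20) (hL : 2 ≤ L) (hE : Real.exp (-L) = ε) (hεL : ε * L ≤ 1 / 2880) :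
    Fr c ^ 2 * (1 / (Real.exp 1 * ε) + 1 / (2 * Real.exp 1) + 1 / 960 / L) ≤ 1 := by
  obtain ⟨n, n1, n2⟩ := Q_ge h0 (by linarith)
  obtain ⟨e1, e2⟩ := e_bd
  have hL0 : 0 < L := by linarith
  have b1 : 4 * L / ε ≤ (⌈4 * L / ε⌉₊ : ℝ) := Nat.le_ceil _
  have b2 := Nat.ceil_lt_add_one (show 0 ≤ 4 * L / ε by positivity)
  have b0 : ⌈4 * L / ε⌉₊ ≠ 0 := (Nat.ceil_pos.2 (by positivity)).ne'
  generalize ⌈4 * L / ε⌉₊ = N at b0 b1 b2
  have hn : (0 : ℝ) ≤ n := by positivity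
  have k := test hc0 hc1 n N b0 (by
    have : ε / 2 ≤ 1 - c := by nlinarith
    have := mul_le_mul_of_nonneg_left this hn
    linarith)
  rw [hc] at k
  generalize ((n : ℝ) + 1) * (1 - ε) ^ n = q at n2 k
  have p2 : 0 < ε ^ 2 := by positivity
  have c1 : c ^ N ≤ ε ^ 2 := by
    have d1 : c ≤ Real.exp (-(ε / 2)) := by
      have := Real.one_sub_le_exp_neg (ε / 2)
      nlinarith
    refine (pow_le_pow_left₀ hc0.le d1 N).trans ?_
    rw [← Real.exp_nat_mul, ← hE, ← Real.exp_nat_mul, Real.exp_le_exp, hE]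
    rw [div_le_iff₀ h0] at b1
    push_cast; linarith
  have c2 : (1 + c ^ N / 4) ^ 2 ≤ 1 + ε ^ 2 := by
    have : 0 < c ^ N := by positivity
    have : ε ^ 2 ≤ 1 := by nlinarith
    nlinarith
  obtain ⟨u, hu⟩ : ∃ u, u = ε / (80 * L) := ⟨_, rfl⟩
  have u0 : 0 < u := by rw [hu]; positivity
  have c3 : u ≤ 1 / (16 * (N + 1)) := by
    rw [hu, div_le_div_iff₀ (by positivity) (by positivity)]
    rw [← sub_lt_iff_lt_add, lt_div_iff₀ h0] at b2
    nlinarith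
  have c4 : 4 * ε ^ 2 ≤ u := by
    rw [hu, le_div_iff₀ (by positivity)]
    nlinarith
  have c5 : u ≤ 1 := by
    rw [hu, div_le_one (by positivity)]
    linarith
  have c6 : 3 * ε ≤ 1 / (2 * Real.exp 1) := by
    rw [le_div_iff₀ (by positivity)]
    nlinarith
  have c7 : 1 / (3 * ε) ≤ 1 / (Real.exp 1 * ε) := by gcongr
  have c8 : 1 / (3 * ε) * (u / 2) = 2 * (1 / 960 / L) := by rw [hu]; field_simp; norm_num
  have c9 : 3 * ε ≤ 1 / 960 / L := by
    rw [le_div_iff₀ hL0]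
    linarith
  have q1 : 1 / (3 * ε) ≤ q := by linarith
  have q0 : 0 < q := lt_of_lt_of_le (by positivity) q1
  have d1 : 1 / (Real.exp 1 * ε) + 1 / (2 * Real.exp 1) + 1 / 960 / L ≤ (1 + u / 2) * q := by
    have := mul_le_mul_of_nonneg_right q1 (show 0 ≤ u / 2 by positivity)
    linarith
  have d2 : (1 + u / 2) * (1 + ε ^ 2) ≤ 1 + 1 / (16 * (N + 1)) := by nlinarith
  have F0 := sq_nonneg (Fr c)
  have d3 : Fr c ^ 2 * ((1 + u / 2) * q) * (1 + ε ^ 2) ≤ 1 * (1 + ε ^ 2) := by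
    calc _ = Fr c ^ 2 * ((1 + u / 2) * (1 + ε ^ 2) * q) := by ring
      _ ≤ Fr c ^ 2 * ((1 + 1 / (16 * (N + 1))) * q) := by gcongr
      _ ≤ _ := by linarith
  exact (mul_le_mul_of_nonneg_left d1 F0).trans (le_of_mul_le_mul_right d3 (by positivity))

theorem Fval_eq {c : ℝ} {f g : ℂ → ℂ} (h : Ext c f g) (hc0 : 0 < c) :
    Fval c = ENNReal.ofReal (Fr c) := by
  refine le_antisymm (((iInf₂_le f h.1).trans (iInf₂_le g h.2.1)).trans
    ((ratioSup_le_iff hc0 (Fr_nonneg c) h.1 h.2.1).2 h.2.2)) ?_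
  simp only [Fval, le_iInf_iff]
  intro f' hf' g' hg'
  by_cases ht : ratioSup c f' g' = ∞
  · rw [ht]; exact le_top
  · rw [← ENNReal.ofReal_toReal ht]
    exact ENNReal.ofReal_le_ofReal (Fr_le ENNReal.toReal_nonneg hf' hg'
      ((ratioSup_le_iff hc0 ENNReal.toReal_nonneg hf' hg').1 (ENNReal.ofReal_toReal ht).ge))

theorem main : ∃ a b c₀ : ℝ, 0 < a ∧ 0 < b ∧ c₀ < 1 ∧ ∀ c : ℝ, c₀ < c → c < 1 →
    ∃ F : ℝ, 0 < F ∧ Fval c = ENNReal.ofReal F ∧
      a / Real.log (1 / (1 - c ^ 2))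
        ≤ 1 / F ^ 2 - 1 / (Real.exp 1 * (1 - c ^ 2)) - 1 / (2 * Real.exp 1) ∧
      1 / F ^ 2 - 1 / (Real.exp 1 * (1 - c ^ 2)) - 1 / (2 * Real.exp 1)
        ≤ b / Real.log (1 / (1 - c ^ 2)) := by
  have d0 : 0 < min eps0 (1 / 10 ^ 8) := lt_min eps0_pos (by norm_num)
  have d1 := min_le_left eps0 (1 / 10 ^ 8)
  have d2 := min_le_right eps0 (1 / 10 ^ 8)
  generalize min eps0 (1 / 10 ^ 8) = δ at d0 d1 d2
  refine ⟨1 / 960, 18, 1 - δ / 2, by norm_num, by norm_num, by linarith, fun c hc hc1 => ?_⟩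
  have hc0 : 0 < c := by linarith
  have h2 : 1 - c ^ 2 ≤ δ := by nlinarith
  obtain ⟨f, g, h⟩ := exists_ext hc0 hc1 (Fr_lt_one hc0 (h2.trans d1))
  have hp := h.pos hc0 hc1
  refine ⟨Fr c, hp, Fval_eq h hc0, ?_⟩
  obtain ⟨ε, hε⟩ : ∃ ε, ε = 1 - c ^ 2 := ⟨_, rfl⟩
  rw [← hε] at h2 ⊢
  have h0 : 0 < ε := by nlinarith
  obtain ⟨L, hL⟩ : ∃ L, L = Real.log (1 / ε) := ⟨_, rfl⟩
  rw [← hL]
  have hE : Real.exp (-L) = ε := by rw [hL, one_div, Real.log_inv, neg_neg, Real.exp_log h0]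
  have L2 : 2 ≤ L := by
    by_contra n
    have a1 : Real.exp (-2) ≤ ε := by rw [← hE, Real.exp_le_exp]; linarith
    have a2 : Real.exp (-2) * (Real.exp 1 * Real.exp 1) = 1 := by
      rw [← Real.exp_add, ← Real.exp_add]; norm_num
    obtain ⟨e1, e2⟩ := e_bd
    have a3 : Real.exp 1 * Real.exp 1 ≤ 9 := by nlinarith
    nlinarith [Real.exp_pos (-2)]
  have hεL : ε * L ≤ 1 / 2880 := by
    have a1 := Real.add_one_le_exp (L / 2)
    have a2 : ε * (Real.exp (L / 2) * Real.exp (L / 2)) = 1 := by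
      rw [← hE, ← Real.exp_add, ← Real.exp_add]; simp
    have a3 : 10 ^ 4 ≤ Real.exp (L / 2) := by
      by_contra n
      have : Real.exp (L / 2) * Real.exp (L / 2) < 10 ^ 8 := by nlinarith [Real.exp_pos (L / 2)]
      nlinarith
    have a4 : 10 ^ 4 * (L / 2) ≤ Real.exp (L / 2) * Real.exp (L / 2) := by nlinarith
    nlinarith
  have k1 := lower hc0 hc1 (by linarith) h0 (by linarith) L2 hE hεL
  have k2 := upper h.2.2 h.1 h.2.1 (by linarith) h0 (by linarith) L2 hE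
  have F2 : 0 < Fr c ^ 2 := by positivity
  rw [← le_div_iff₀' F2] at k1
  rw [← div_le_iff₀' F2] at k2
  have k3 : 2 * ε ≤ 2 / L := by
    rw [le_div_iff₀ (by linarith)]
    linarith
  have k4 : 18 / L = 16 / L + 2 / L := by ring
  constructor <;> linarith

end Pool.Agent.P.MP_99f05c_an.Asym
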