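import Pool.Agent.P.MP_99f05c_an.Zeros

/-! Compactness: limits of extremal pairs. -/

set_option autoImplicit false

open Set Filter Topology MeasureTheory Metric Complex
open scoped Real

namespace Pool.Agent.P.MP_99f05c_an

/-- Real form of the extremal value. -/
noncomputable def Fr (c : ℝ) : ℝ :=
  sInf {φ | 0 ≤ φ ∧ ∃ f ∈ S1, ∃ g ∈ S1, Dom c φ f g}

theorem monomial_mem (n : ℕ) : (fun z : ℂ => ((√(n + 1) : ℝ) : ℂ) * z ^ n) ∈ S1 := by
  have h : Rep (fun z : ℂ => ((√(n + 1) : ℝ) : ℂ) * z ^ n)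
      (fun k => if k = n then ((√(n + 1) : ℝ) : ℂ) else 0) := fun z _ =>
    hasSum_congr (hasSum_ite_eq n _) fun k => by
      by_cases hk : k = n
      · subst hk; simp
      · simp [hk]
  refine h.mem_S1_iff.2 (hasSum_congr (hasSum_ite_eq n _) fun k => ?_)
  by_cases hk : k = n
  · subst hk
    have : (0 : ℝ) < k + 1 := by positivity
    simp only [if_true, norm_real, Real.norm_eq_abs, sq_abs, Real.sq_sqrt this.le]
    field_simp
  · simp [hk]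

theorem Fr_le {c φ : ℝ} {f g : ℂ → ℂ} (hφ : 0 ≤ φ) (hf : f ∈ S1) (hg : g ∈ S1)
    (hd : Dom c φ f g) : Fr c ≤ φ :=
  csInf_le ⟨0, fun _ h => h.1⟩ ⟨hφ, f, hf, g, hg, hd⟩

theorem Fr_nonempty (c : ℝ) : {φ | 0 ≤ φ ∧ ∃ f ∈ S1, ∃ g ∈ S1, Dom c φ f g}.Nonempty :=
  ⟨1, zero_le_one, _, monomial_mem 0, _, monomial_mem 0, fun z _ _ => by simp⟩

theorem Fr_nonneg (c : ℝ) : 0 ≤ Fr c := le_csInf (Fr_nonempty c) fun _ h => h.1

theorem Fr_mul_le {c : ℝ} (hc : 0 < c) (n : ℕ) : Fr c ^ 2 * ((n + 1) * (c ^ 2) ^ n) ≤ 1 := by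
  have hn : (0 : ℝ) < n + 1 := by positivity
  have hs : 0 < √((n : ℝ) + 1) := Real.sqrt_pos.2 hn
  have h := Fr_le (c := c) (φ := (√(n + 1) * c ^ n)⁻¹) (by positivity) (monomial_mem 0)
    (monomial_mem n) fun z hz _ => by
      simp only [norm_mul, norm_real, Real.norm_eq_abs, abs_of_pos hs, norm_pow]
      rw [inv_mul_eq_div, le_div_iff₀ (by positivity)]
      simp only [Nat.cast_zero, zero_add, Real.sqrt_one, abs_one, pow_zero, one_mul]
      gcongr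
  have h2 := pow_le_pow_left₀ (Fr_nonneg c) h 2
  have e : ((n : ℝ) + 1) * (c ^ 2) ^ n = (√(n + 1) * c ^ n) ^ 2 := by
    rw [mul_pow, Real.sq_sqrt hn.le]; ring
  rw [e]
  rw [inv_pow] at h2
  exact (le_mul_inv_iff₀ (by positivity)).1 (by rwa [one_mul])

theorem Unit1.sq_le {a : ℕ → ℂ} (h : Unit1 a) (k : ℕ) : ‖a k‖ ^ 2 / (k + 1) ≤ 1 :=
  le_hasSum h k fun j _ => by positivity

theorem Unit1.norm_le {a : ℕ → ℂ} (h : Unit1 a) (k : ℕ) : ‖a k‖ ≤ k + 1 := by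
  have := h.sq_le k
  rw [div_le_one (by positivity)] at this
  have hk : (0 : ℝ) ≤ k := by positivity
  nlinarith [norm_nonneg (a k)]

theorem summable_lin {ρ : ℝ} (h0 : 0 ≤ ρ) (h1 : ρ < 1) :
    Summable fun k : ℕ => ((k : ℝ) + 1) * ρ ^ k := by
  have h : ‖ρ‖ < 1 := by rwa [Real.norm_of_nonneg h0]
  have := (hasSum_coe_mul_geometric_of_norm_lt_one h).summable.add
    (summable_geometric_of_lt_one h0 h1)
  exact this.congr fun k => by ring

theorem rep_tsum {a : ℕ → ℂ} (h : ∀ k, ‖a k‖ ≤ k + 1) : Rep (fun z => ∑' k, a k * z ^ k) a :=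
  fun z hz => (Summable.of_norm_bounded (summable_lin (norm_nonneg z) hz) fun k => by
    rw [norm_mul, norm_pow]; gcongr; exact h k).hasSum

theorem S1_half {g : ℂ → ℂ} (hg : g ∈ S1) {z : ℂ} (hz : ‖z‖ = 1 / 2) : ‖g z‖ ≤ 4 := by
  obtain ⟨b, hb, hb1⟩ := exists_unit1 hg
  have h : ‖(1 / 2 : ℝ)‖ < 1 := by norm_num
  have := (hasSum_coe_mul_geometric_of_norm_lt_one h).add
    (hasSum_geometric_of_lt_one (r := 1 / 2) (by norm_num) (by norm_num))
  norm_num at this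
  refine (hb z (by linarith)).norm_le_of_bounded this fun k => ?_
  rw [norm_mul, norm_pow, hz]
  have := hb1.norm_le k
  calc ‖b k‖ * (1 / 2) ^ k ≤ (k + 1) * (1 / 2) ^ k := by gcongr
    _ = _ := by ring

theorem unif {fs : ℕ → ℂ → ℂ} {as : ℕ → ℕ → ℂ} {f : ℂ → ℂ} {a : ℕ → ℂ}
    (h1 : ∀ n, Rep (fs n) (as n)) (h2 : Rep f a) (h3 : ∀ n k, ‖as n k‖ ≤ k + 1)
    (h4 : ∀ k, ‖a k‖ ≤ k + 1) (h5 : ∀ k, Tendsto (fun n => as n k) atTop (𝓝 (a k)))
    {ρ : ℝ} (hρ : ρ < 1) {η : ℝ} (hη : 0 < η) :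
    ∀ᶠ n in atTop, ∀ z, ‖z‖ ≤ ρ → ‖fs n z - f z‖ ≤ η := by
  rcases lt_or_ge ρ 0 with h0 | h0
  · exact Eventually.of_forall fun n z hz => by linarith [norm_nonneg z]
  have hb : ∀ n k, ‖as n k - a k‖ * ρ ^ k ≤ 2 * ((k + 1) * ρ ^ k) := fun n k => by
    have := (norm_sub_le _ _).trans (add_le_add (h3 n k) (h4 k))
    have := pow_nonneg h0 k
    nlinarith
  have ht : Tendsto (fun n => ∑' k, ‖as n k - a k‖ * ρ ^ k) atTop (𝓝 (∑' _ : ℕ, (0 : ℝ))) :=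
    tendsto_tsum_of_dominated_convergence ((summable_lin h0 hρ).mul_left 2) (fun k => by
      have := ((tendsto_iff_norm_sub_tendsto_zero.1 (h5 k)).mul_const (ρ ^ k))
      simpa using this) (Eventually.of_forall fun n k => by
        rw [Real.norm_of_nonneg (by positivity)]; exact hb n k)
  rw [tsum_zero] at ht
  filter_upwards [ht.eventually_lt_const hη] with n hn z hz
  refine le_trans (((h1 n z (by linarith)).sub (h2 z (by linarith))).norm_le_of_bounded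
    (Summable.of_nonneg_of_le (fun k => by positivity) (hb n)
      ((summable_lin h0 hρ).mul_left 2)).hasSum fun k => ?_) hn.le
  rw [← sub_mul, norm_mul, norm_pow]
  gcongr

theorem tendsto_radial {c : ℝ} {z : ℂ} (hc : 0 < c) (h1 : c ≤ ‖z‖) (h2 : ‖z‖ < 1) :
    Tendsto (fun t : ℝ => (t : ℂ) * z) (𝓝[>] 1) (𝓝[≠] z) ∧
      ∀ᶠ t : ℝ in 𝓝[>] 1, c < ‖(t : ℂ) * z‖ ∧ ‖(t : ℂ) * z‖ < 1 := by
  have hz : 0 < ‖z‖ := by linarith
  have h0 : Tendsto (fun t : ℝ => (t : ℂ) * z) (𝓝[>] 1) (𝓝 z) := by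
    have : ContinuousAt (fun t : ℝ => (t : ℂ) * z) 1 := by fun_prop
    simpa using this.tendsto.mono_left nhdsWithin_le_nhds
  have h3 : ∀ᶠ t : ℝ in 𝓝[>] 1, ‖z‖ < ‖(t : ℂ) * z‖ := by
    filter_upwards [self_mem_nhdsWithin] with t ht
    have ht : 1 < t := ht
    rw [norm_mul, norm_real, Real.norm_of_nonneg (by linarith)]
    nlinarith
  refine ⟨tendsto_nhdsWithin_iff.2 ⟨h0, h3.mono fun t ht h => ?_⟩, ?_⟩
  · rw [mem_singleton_iff.1 h] at ht
    exact lt_irrefl _ ht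
  · filter_upwards [h3, h0.norm.eventually_lt_const h2] with t a1 a2
    exact ⟨by linarith, a2⟩

theorem dom_of_eventually {c φ : ℝ} {f g : ℂ → ℂ} (hc : 0 < c)
    (hf : DifferentiableOn ℂ f (ball 0 1)) (hg : DifferentiableOn ℂ g (ball 0 1))
    (h : ∀ z, ‖z‖ < 1 → ∀ᶠ w in 𝓝[≠] z, c < ‖w‖ → ‖w‖ < 1 → ‖f w‖ ≤ φ * ‖g w‖) :
    Dom c φ f g := by
  intro z h1 h2
  obtain ⟨t1, t2⟩ := tendsto_radial hc h1 h2
  have hz : ball (0 : ℂ) 1 ∈ 𝓝 z := isOpen_ball.mem_nhds (by simpa using h2)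
  have t3 := t1.mono_right nhdsWithin_le_nhds
  refine le_of_tendsto_of_tendsto ((hf.continuousOn.continuousAt hz).norm.tendsto.comp t3)
    (((hg.continuousOn.continuousAt hz).norm.tendsto.comp t3).const_mul φ) ?_
  filter_upwards [t1.eventually (h z h2), t2] with t a1 a2
  exact a1 a2.1 a2.2

theorem Rep.eq_zero_of_annulus {f : ℂ → ℂ} {a : ℕ → ℂ} (h : Rep f a) {c : ℝ} (hc0 : 0 < c)
    (hc1 : c < 1) (h0 : ∀ z, ‖z‖ = c → f z = 0) (k : ℕ) : a k = 0 := by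
  have p := h.sq_tsum hc0.le hc1 0
  simp_rw [h0 _ (norm_circ c _ hc0.le)] at p
  have := le_hasSum p k fun j _ => by positivity
  simp only [norm_zero, ne_eq, OfNat.ofNat_ne_zero, not_false_eq_true, zero_pow,
    intervalIntegral.integral_zero, zero_div] at this
  have h2 : ‖a k‖ ^ 2 ≤ 0 := by
    by_contra h3
    push Not at h3
    exact absurd this (not_le.2 (by positivity))
  exact norm_eq_zero.1 (pow_eq_zero_iff two_ne_zero |>.1 (le_antisymm h2 (by positivity)))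

theorem Rep.scale {f : ℂ → ℂ} {a : ℕ → ℂ} (h : Rep f a) {x : ℝ} (hx : 0 < x)
    (hs : HasSum (fun k => ‖a k‖ ^ 2 / (k + 1)) x) :
    (fun z => (((√x)⁻¹ : ℝ) : ℂ) * f z) ∈ S1 := by
  have h2 : Rep (fun z => (((√x)⁻¹ : ℝ) : ℂ) * f z) (fun k => (((√x)⁻¹ : ℝ) : ℂ) * a k) :=
    fun z hz => hasSum_congr ((h z hz).mul_left _) fun k => by ring
  refine h2.mem_S1_iff.2 ?_
  have := hs.mul_left x⁻¹
  rw [inv_mul_cancel₀ hx.ne'] at this
  refine hasSum_congr this fun k => ?_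
  rw [norm_mul, mul_pow, norm_real, Real.norm_eq_abs, sq_abs, inv_pow, Real.sq_sqrt hx.le]
  ring

theorem tail_le {c φ : ℝ} {f g : ℂ → ℂ} {a b : ℕ → ℂ} (hd : Dom c φ f g) (ha : Rep f a)
    (hb : Rep g b) (ha1 : Unit1 a) (hb1 : Unit1 b) {ρ : ℝ} (h0 : c ^ 2 ≤ ρ) (h1 : ρ < 1) :
    1 - ∑' k, ‖a k‖ ^ 2 / (k + 1) * ρ ^ (k + 1)
      ≤ φ ^ 2 * (1 - ∑' k, ‖b k‖ ^ 2 / (k + 1) * ρ ^ (k + 1)) := by
  have ρ0 : 0 ≤ ρ := (sq_nonneg c).trans h0
  have sm : ∀ a : ℕ → ℂ, Unit1 a → Summable fun k => ‖a k‖ ^ 2 / (k + 1) * ρ ^ (k + 1) :=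
    fun a ha => Summable.of_nonneg_of_le (fun k => by positivity) (fun k =>
      mul_le_of_le_one_right (by positivity) (pow_le_one₀ ρ0 h1.le)) ha.summable
  have := tail_nonneg (γ := fun k => φ ^ 2 * ‖b k‖ ^ 2 - ‖a k‖ ^ 2) (by
    refine Summable.of_nonneg_of_le (fun k => by positivity) (fun k => ?_)
      ((hb1.summable.mul_left (φ ^ 2)).add ha1.summable)
    rw [mul_div_assoc', ← add_div]
    gcongr
    have : 0 ≤ φ ^ 2 * ‖b k‖ ^ 2 := by positivity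
    have : 0 ≤ ‖a k‖ ^ 2 := by positivity
    rw [abs_le]; constructor <;> linarith) ρ0 h1 (fun t ht1 ht2 => by
    have ht0 : 0 ≤ t := ρ0.trans ht1.le
    have e := (((hb.sq_hasSum ht0 ht2).summable.hasSum.mul_left (φ ^ 2)).sub
      (ha.sq_hasSum ht0 ht2).summable.hasSum)
    rw [(hasSum_congr e fun k => by ring).tsum_eq]
    linarith [hd.tsum_le ha hb (by linarith) ht2])
  rw [(hasSum_congr (((hb1.sub (sm b hb1).hasSum).mul_left (φ ^ 2)).sub
    (ha1.sub (sm a ha1).hasSum)) fun k => by ring).tsum_eq] at this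
  linarith

theorem limit_pair {c φ : ℝ} (hc0 : 0 < c) (hc1 : c < 1) (hφ1 : φ < 1) (hφF : φ ≤ Fr c)
    {cs φs : ℕ → ℝ} {fs gs : ℕ → ℂ → ℂ} (hcs : Tendsto cs atTop (𝓝 c))
    (hφs : Tendsto φs atTop (𝓝 φ)) (hφ0 : 0 ≤ φ) (hf : ∀ n, fs n ∈ S1) (hg : ∀ n, gs n ∈ S1)
    (hd : ∀ n, Dom (cs n) (φs n) (fs n) (gs n)) :
    ∃ f ∈ S1, ∃ g ∈ S1, Dom c φ f g ∧ ∃ ψ : ℕ → ℕ, StrictMono ψ ∧
      ∀ ρ < 1, ∀ η > 0, ∀ᶠ n in atTop, ∀ z, ‖z‖ ≤ ρ → ‖gs (ψ n) z - g z‖ ≤ η := by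
  choose as has has1 using fun n => exists_unit1 (hf n)
  choose bs hbs hbs1 using fun n => exists_unit1 (hg n)
  set K : Set (ℕ → ℂ) := Set.pi univ fun k => closedBall (0 : ℂ) (k + 1) with hK
  have hKc : IsCompact K := isCompact_univ_pi fun k => isCompact_closedBall _ _
  have hmem : ∀ a : ℕ → ℂ, Unit1 a → a ∈ K := fun a ha k _ => by simpa using ha.norm_le k
  obtain ⟨⟨a, b⟩, ⟨haK, hbK⟩, ψ, hψ, hlim⟩ := (hKc.prod hKc).tendsto_subseq
    (x := fun n => (as n, bs n)) fun n => ⟨hmem _ (has1 n), hmem _ (hbs1 n)⟩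
  have ha' : ∀ k, ‖a k‖ ≤ k + 1 := fun k => by simpa using haK k trivial
  have hb' : ∀ k, ‖b k‖ ≤ k + 1 := fun k => by simpa using hbK k trivial
  have la : ∀ k, Tendsto (fun n => as (ψ n) k) atTop (𝓝 (a k)) :=
    tendsto_pi_nhds.1 ((continuous_fst.tendsto _).comp hlim)
  have lb : ∀ k, Tendsto (fun n => bs (ψ n) k) atTop (𝓝 (b k)) :=
    tendsto_pi_nhds.1 ((continuous_snd.tendsto _).comp hlim)
  obtain ⟨f, ha⟩ : ∃ f, Rep f a := ⟨_, rep_tsum ha'⟩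
  obtain ⟨g, hb⟩ : ∃ g, Rep g b := ⟨_, rep_tsum hb'⟩
  have ua := fun ρ hρ η hη => unif (ρ := ρ) (η := η) (fun n => has (ψ n)) ha
    (fun n => (has1 (ψ n)).norm_le) ha' la hρ hη
  have ub := fun ρ hρ η hη => unif (ρ := ρ) (η := η) (fun n => hbs (ψ n)) hb
    (fun n => (hbs1 (ψ n)).norm_le) hb' lb hρ hη
  have hcs' := hcs.comp hψ.tendsto_atTop
  have hφs' := hφs.comp hψ.tendsto_atTop
  have pt : ∀ {F : ℕ → ℂ → ℂ} {F0 : ℂ → ℂ}, (∀ ρ < 1, ∀ η > 0, ∀ᶠ n in atTop, ∀ z, ‖z‖ ≤ ρ →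
      ‖F n z - F0 z‖ ≤ η) → ∀ z, ‖z‖ < 1 → Tendsto (fun n => F n z) atTop (𝓝 (F0 z)) := by
    intro F F0 h z hz
    rw [Metric.tendsto_nhds]
    intro η hη
    filter_upwards [h _ hz (η / 2) (by linarith)] with n hn
    rw [dist_eq_norm]
    linarith [hn z le_rfl]
  have hdom : Dom c φ f g := dom_of_eventually hc0 ha.diff hb.diff fun _ _ =>
    Eventually.of_forall fun w h1 h2 => le_of_tendsto_of_tendsto (pt ua w h2).norm
      (hφs'.mul (pt ub w h2).norm) (by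
        filter_upwards [hcs'.eventually_lt_const h1] with n hn
        exact hd _ w hn.le h2)
  have fatou : ∀ {as : ℕ → ℕ → ℂ} {a : ℕ → ℂ}, (∀ n, Unit1 (as n)) →
      (∀ k, Tendsto (fun n => as n k) atTop (𝓝 (a k))) →
      ∀ s : Finset ℕ, ∑ k ∈ s, ‖a k‖ ^ 2 / (k + 1) ≤ 1 := by
    intro as a h1 h2 s
    refine le_of_tendsto' (tendsto_finsetSum s fun k _ =>
      ((h2 k).norm.pow 2).div_const ((k : ℝ) + 1)) fun n => ?_
    exact sum_le_hasSum s (fun k _ => by positivity) (h1 n)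
  have sa := summable_of_sum_le (fun k => by positivity) (fatou (fun n => has1 (ψ n)) la)
  have sb := summable_of_sum_le (fun k => by positivity) (fatou (fun n => hbs1 (ψ n)) lb)
  set x := ∑' k, ‖a k‖ ^ 2 / (k + 1) with hx
  set y := ∑' k, ‖b k‖ ^ 2 / (k + 1) with hy
  have x1 : x ≤ 1 := sa.tsum_le_of_sum_le (fatou (fun n => has1 (ψ n)) la)
  have y1 : y ≤ 1 := sb.tsum_le_of_sum_le (fatou (fun n => hbs1 (ψ n)) lb)
  have y0 : 0 ≤ y := tsum_nonneg fun k => by positivity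
  have head : ∀ {as : ℕ → ℕ → ℂ} {a : ℕ → ℂ}, (∀ n, Unit1 (as n)) →
      (∀ k, Tendsto (fun n => as n k) atTop (𝓝 (a k))) → ∀ ρ : ℝ, 0 ≤ ρ → ρ < 1 →
      Tendsto (fun n => ∑' k, ‖as n k‖ ^ 2 / (k + 1) * ρ ^ (k + 1)) atTop
        (𝓝 (∑' k, ‖a k‖ ^ 2 / (k + 1) * ρ ^ (k + 1))) := by
    intro as a h1 h2 ρ ρ0 ρ1
    refine tendsto_tsum_of_dominated_convergence
      ((summable_geometric_of_lt_one ρ0 ρ1).mul_right ρ) (fun k =>
        (((h2 k).norm.pow 2).div_const ((k : ℝ) + 1)).mul_const _)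
      (Eventually.of_forall fun n k => ?_)
    rw [Real.norm_of_nonneg (by positivity), ← pow_succ]
    exact mul_le_of_le_one_left (by positivity) ((h1 n).sq_le k)
  have full : ∀ {a : ℕ → ℂ}, Summable (fun k => ‖a k‖ ^ 2 / (k + 1)) →
      Tendsto (fun ρ : ℝ => ∑' k, ‖a k‖ ^ 2 / (k + 1) * ρ ^ (k + 1)) (𝓝[<] 1)
        (𝓝 (∑' k, ‖a k‖ ^ 2 / (k + 1))) := by
    intro a h
    refine tendsto_tsum_of_dominated_convergence h (fun k => ?_) ?_
    · have : ContinuousAt (fun ρ : ℝ => ‖a k‖ ^ 2 / (k + 1) * ρ ^ (k + 1)) 1 := by fun_prop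
      simpa using this.tendsto.mono_left nhdsWithin_le_nhds
    · filter_upwards [Ioo_mem_nhdsLT zero_lt_one] with ρ hρ k
      have := hρ.1
      rw [Real.norm_of_nonneg (by positivity)]
      exact mul_le_of_le_one_right (by positivity) (pow_le_one₀ hρ.1.le hρ.2.le)
  have key : 1 - x ≤ φ ^ 2 * (1 - y) := by
    refine le_of_tendsto_of_tendsto ((full sa).const_sub 1)
      (((full sb).const_sub 1).const_mul _) ?_
    filter_upwards [Ioo_mem_nhdsLT (show c ^ 2 < 1 by nlinarith)] with ρ hρ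
    have ρ0 : 0 ≤ ρ := (sq_nonneg c).trans hρ.1.le
    refine le_of_tendsto_of_tendsto ((head (fun n => has1 (ψ n)) la ρ ρ0 hρ.2).const_sub 1)
      ((hφs'.pow 2).mul ((head (fun n => hbs1 (ψ n)) lb ρ ρ0 hρ.2).const_sub 1)) ?_
    filter_upwards [(hcs'.pow 2).eventually_lt_const hρ.1] with n hn
    exact tail_le (hd _) (has _) (hbs _) (has1 _) (hbs1 _) hn.le hρ.2
  have φ2 : φ ^ 2 < 1 := by nlinarith
  have x0 : 0 < x := by nlinarith [sq_nonneg φ]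
  have nz : ¬ ∀ z, ‖z‖ = c → f z = 0 := fun h => by
    have : x = 0 := by simp [hx, ha.eq_zero_of_annulus hc0 hc1 h]
    linarith
  have φ0 : 0 < φ := lt_of_le_of_ne hφ0 fun h => nz fun z hz => by
    have := hdom z hz.ge (by linarith)
    rw [← h, zero_mul] at this
    exact norm_le_zero_iff.1 this
  have y0' : 0 < y := lt_of_le_of_ne y0 fun h => nz fun z hz => by
    have hb0 : ∀ k, b k = 0 := fun k => by
      have h1 := le_hasSum sb.hasSum k fun j _ => by positivity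
      rw [← hy, ← h, div_nonpos_iff] at h1
      have hk : (0 : ℝ) < k + 1 := by positivity
      rcases h1 with h1 | h1
      · linarith [h1.2]
      · exact norm_eq_zero.1 (pow_eq_zero_iff two_ne_zero |>.1 (le_antisymm h1.1 (by positivity)))
    have hg0 : g z = 0 := by
      have := hb z (by linarith)
      simp only [hb0, zero_mul] at this
      exact this.unique hasSum_zero
    have := hdom z hz.ge (by linarith)
    rw [hg0, norm_zero, mul_zero] at this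
    exact norm_le_zero_iff.1 this
  have sx := Real.sqrt_pos.2 x0
  have sy := Real.sqrt_pos.2 y0'
  have le1 := Fr_le (c := c) (φ := φ * √y / √x) (by positivity) (ha.scale x0 sa.hasSum)
    (hb.scale y0' sb.hasSum) fun z h1 h2 => by
      simp only [norm_mul, norm_real, Real.norm_eq_abs, abs_inv, abs_of_pos sx, abs_of_pos sy]
      have := hdom z h1 h2
      have e : φ * √y / √x * ((√y)⁻¹ * ‖g z‖) = (√x)⁻¹ * (φ * ‖g z‖) := by field_simp
      rw [e]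
      gcongr
  have xy : x ≤ y := by
    have := hφF.trans le1
    rw [le_div_iff₀ sx] at this
    exact (Real.sqrt_le_sqrt_iff y0).1 (le_of_mul_le_mul_left this φ0)
  have xe : x = 1 := by nlinarith
  have ye : y = 1 := by linarith
  have sa' := sa.hasSum
  have sb' := sb.hasSum
  rw [← hx, xe] at sa'
  rw [← hy, ye] at sb'
  exact ⟨f, ha.mem_S1_iff.2 sa', g, hb.mem_S1_iff.2 sb', hdom, ψ, hψ, ub⟩

end Pool.Agent.P.MP_99f05c_an
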