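import Mathlib

/-! Definitions for the Korenblum-type extremal problem in the Bergman space. -/

set_option autoImplicit false

open Set MeasureTheory Metric
open scoped ENNReal

namespace Pool.Agent.P.MP_99f05c_an

/-- `f` belongs to the Bergman space `A²(𝔻)`: analytic on the unit disc and square integrable
for area measure. -/
def IsA2 (f : ℂ → ℂ) : Prop :=
  DifferentiableOn ℂ f (ball 0 1) ∧ IntegrableOn (fun z => ‖f z‖ ^ 2) (ball (0 : ℂ) 1)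

/-- The Bergman norm `(π⁻¹ ∫_𝔻 |f|² dA)^(1/2)`. -/
noncomputable def bnorm (f : ℂ → ℂ) : ℝ :=
  Real.sqrt (Real.pi⁻¹ * ∫ z in ball (0 : ℂ) 1, ‖f z‖ ^ 2)

/-- The unit sphere `S¹` of the Bergman space. -/
def S1 : Set (ℂ → ℂ) := {f | IsA2 f ∧ bnorm f = 1}

/-- Korenblum's constant. -/
noncomputable def kappa : ℝ :=
  sSup {c : ℝ | 0 < c ∧ c < 1 ∧ ∀ f g : ℂ → ℂ, IsA2 f → IsA2 g →
    (∀ z : ℂ, c < ‖z‖ → ‖z‖ < 1 → ‖f z‖ ≤ ‖g z‖) → bnorm f ≤ bnorm g}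

/-- `sup |f / g|` over `c ≤ |z| < 1`, in `[0, ∞]`, taken over the points where `g ≠ 0`. -/
noncomputable def ratioSup (c : ℝ) (f g : ℂ → ℂ) : ℝ≥0∞ :=
  ⨆ (z : ℂ) (_ : c ≤ ‖z‖ ∧ ‖z‖ < 1 ∧ g z ≠ 0), ‖f z / g z‖ₑ

/-- The extremal value `F(c)`. -/
noncomputable def Fval (c : ℝ) : ℝ≥0∞ :=
  ⨅ (f : ℂ → ℂ) (_ : f ∈ S1) (g : ℂ → ℂ) (_ : g ∈ S1), ratioSup c f g

/-- `(f, g)` is an extremal pair for `F(c)`. -/
def IsExtremal (c : ℝ) (f g : ℂ → ℂ) : Prop :=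
  f ∈ S1 ∧ g ∈ S1 ∧ ratioSup c f g = Fval c

/-- The reflection `h*(z) = conj (h (conj z))`. -/
def refl (h : ℂ → ℂ) : ℂ → ℂ := fun z => (starRingEnd ℂ) (h ((starRingEnd ℂ) z))

/-- Equivalence of pairs under unimodular factors, rotation and simultaneous reflection. -/
def PairEquiv (f₁ g₁ f₂ g₂ : ℂ → ℂ) : Prop :=
  ∃ α β θ : ℝ, ∃ f g : ℂ → ℂ, ((f = f₁ ∧ g = g₁) ∨ (f = refl f₁ ∧ g = refl g₁)) ∧
    ∀ z ∈ ball (0 : ℂ) 1,
      f₂ z = Complex.exp (α * Complex.I) * f (Complex.exp (θ * Complex.I) * z) ∧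
      g₂ z = Complex.exp (β * Complex.I) * g (Complex.exp (θ * Complex.I) * z)

end Pool.Agent.P.MP_99f05c_an
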