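import Pool.Agent.P.MP_99f05c_an.Series

/-! The dual estimate for coefficient sequences. -/

set_option autoImplicit false

open Set Filter Topology MeasureTheory Metric
open scoped Real

namespace Pool.Agent.P.MP_99f05c_an

theorem tail_nonneg {γ : ℕ → ℝ} (hγ : Summable fun k => |γ k| / (k + 1)) {ρ : ℝ} (h0 : 0 ≤ ρ)
    (h1 : ρ < 1) (hpos : ∀ t, ρ < t → t < 1 → 0 ≤ ∑' k, γ k * t ^ k) :
    0 ≤ ∑' k, γ k * ((1 - ρ ^ (k + 1)) / (k + 1)) := by
  have hint : ∀ (x : ℝ) (k : ℕ), ∫ t in Ioo ρ 1, x * t ^ k = x * ((1 - ρ ^ (k + 1)) / (k + 1)) := by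
    intro x k
    rw [← integral_Ioc_eq_integral_Ioo, ← intervalIntegral.integral_of_le h1.le,
      intervalIntegral.integral_const_mul, integral_pow, one_pow]
  have hs := hasSum_integral_of_summable_integral_norm (μ := volume.restrict (Ioo ρ 1))
    (F := fun k t => γ k * t ^ k)
    (fun k => (Continuous.integrableOn_Icc (by fun_prop)).mono_set Ioo_subset_Icc_self) (by
      refine Summable.of_nonneg_of_le (fun k => integral_nonneg fun t => norm_nonneg _)
        (fun k => ?_) hγ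
      have : ∫ t in Ioo ρ 1, ‖γ k * t ^ k‖ = ∫ t in Ioo ρ 1, |γ k| * t ^ k :=
        setIntegral_congr_fun measurableSet_Ioo fun t ht => by
          have : 0 ≤ t := h0.trans ht.1.le
          simp only [Real.norm_eq_abs, abs_mul, abs_pow, abs_of_nonneg this]
      rw [this, hint, mul_div_assoc']
      have := pow_nonneg h0 (k + 1)
      gcongr
      nlinarith [abs_nonneg (γ k)])
  simp_rw [hint] at hs
  rw [hs.tsum_eq]
  exact setIntegral_nonneg measurableSet_Ioo fun t ht => hpos t ht.1 ht.2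

theorem exp_cubic {u : ℝ} (hu : -1 ≤ u) : (1 + u) * u ^ 2 ≤ 6 * (Real.exp u - 1 - u) := by
  rcases le_total 0 u with h | h
  · have := Real.sum_le_exp_of_nonneg h 4
    simp only [Finset.sum_range_succ, Finset.range_zero, Finset.sum_empty, Nat.factorial,
      Nat.succ_eq_add_one] at this
    norm_num at this
    nlinarith [sq_nonneg u]
  · have := Real.exp_bound (x := u) (by rw [abs_le]; constructor <;> linarith) (n := 3)
      (by norm_num)
    simp only [Finset.sum_range_succ, Finset.range_zero, Finset.sum_empty, Nat.factorial,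
      Nat.succ_eq_add_one] at this
    norm_num at this
    rw [abs_of_nonpos h] at this
    have h2 := (abs_le.1 this).1
    nlinarith [sq_nonneg u, mul_nonneg (sq_nonneg u) (neg_nonneg.2 h),
      mul_nonneg (sq_nonneg u) (show 0 ≤ 1 + u by linarith)]

/-- The constant `Λ`. -/
def Lam : ℝ := 1200000000

/-- The threshold for `1 - c²`. -/
noncomputable def eps0 : ℝ := 1 / (48 * Real.exp (2 * Lam))

theorem eps0_pos : 0 < eps0 := by unfold eps0; positivity

theorem eps0_le : eps0 ≤ 1 / 48 := by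
  unfold eps0
  have : 1 ≤ Real.exp (2 * Lam) := Real.one_le_exp (by unfold Lam; norm_num)
  apply one_div_le_one_div_of_le <;> linarith

section
variable {ε : ℝ}

theorem p_le (h0 : 0 < ε) (h1 : ε < 1) (k : ℕ) :
    (k + 1) * (1 - ε) ^ k ≤ 1 / (Real.exp 1 * ε * (1 - ε)) *
      (((k + 1) * ε) * Real.exp (1 - (k + 1) * ε)) := by
  have hs : 0 < 1 - ε := by linarith
  have a1 : (1 - ε) ^ (k + 1) ≤ Real.exp (-((k + 1) * ε)) := by
    have := pow_le_pow_left₀ hs.le (Real.one_sub_le_exp_neg ε) (k + 1)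
    rw [← Real.exp_nat_mul] at this
    refine this.trans_eq ?_
    congr 1
    push_cast; ring
  have e : Real.exp (1 - (k + 1) * ε) = Real.exp 1 * Real.exp (-((k + 1) * ε)) := by
    rw [← Real.exp_add]; congr 1
  rw [e]
  have he := Real.exp_pos 1
  have : 1 / (Real.exp 1 * ε * (1 - ε)) * (((k + 1) * ε) * (Real.exp 1 * Real.exp (-((k + 1) * ε))))
      = (k + 1) * (Real.exp (-((k + 1) * ε)) / (1 - ε)) := by field_simp
  rw [this]
  gcongr
  rw [le_div_iff₀ hs, ← pow_succ]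
  exact a1

theorem exists_p_ge (h0 : 0 < ε) (h1 : ε < 1) :
    ∃ n : ℕ, (1 - ε) / (Real.exp 1 * ε) ≤ (n + 1) * (1 - ε) ^ n := by
  have hs : 0 < 1 - ε := by linarith
  have b0 : 1 ≤ 1 / ε := by rw [le_div_iff₀ h0]; linarith
  obtain ⟨n, hn⟩ : ∃ n : ℕ, ⌊1 / ε⌋₊ = n + 1 :=
    Nat.exists_eq_succ_of_ne_zero (Nat.pos_iff_ne_zero.1 (Nat.floor_pos.2 b0))
  have b1 : ((n : ℝ) + 1) ≤ 1 / ε := by
    have := Nat.floor_le (show 0 ≤ 1 / ε by positivity)
    rw [hn] at this; exact_mod_cast this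
  have b2 : 1 / ε < (n : ℝ) + 1 + 1 := by
    have := Nat.lt_floor_add_one (1 / ε)
    rw [hn] at this; exact_mod_cast this
  rw [le_div_iff₀ h0] at b1
  rw [div_lt_iff₀ h0] at b2
  have c1 : Real.exp (-(ε / (1 - ε))) ≤ 1 - ε := by
    have := Real.add_one_le_exp (ε / (1 - ε))
    have e : ε / (1 - ε) + 1 = (1 - ε)⁻¹ := by field_simp; ring
    rw [e] at this
    rw [Real.exp_neg]
    exact inv_le_of_inv_le₀ hs this
  have c2 : (Real.exp 1)⁻¹ ≤ (1 - ε) ^ n := by
    refine le_trans ?_ (pow_le_pow_left₀ (Real.exp_pos _).le c1 n)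
    rw [← Real.exp_nat_mul, ← Real.exp_neg, Real.exp_le_exp, mul_neg, neg_le_neg_iff,
      ← mul_div_assoc, div_le_one hs]
    linarith
  refine ⟨n, ?_⟩
  have e : (1 - ε) / (Real.exp 1 * ε) = (1 - ε) / ε * (Real.exp 1)⁻¹ := by field_simp
  rw [e]
  have c3 : (1 - ε) / ε ≤ n + 1 := by rw [div_le_iff₀ h0]; linarith
  gcongr

theorem P1 (h0 : 0 < ε) (h1 : ε ≤ eps0) (k : ℕ) (hk : k ≠ 0) :
    (k + 1) * (1 - ε) ^ k / 4 + 5 / 4
      ≤ (k + 1) * (1 - ε) ^ k + 3 * (1 - (1 - ε / Lam) ^ (k + 1)) := by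
  have h2 := h1.trans eps0_le
  have hL : (1 : ℝ) ≤ Lam := by unfold Lam; norm_num
  have hs : 0 < 1 - ε := by linarith
  have hp : 0 ≤ ((k : ℝ) + 1) * (1 - ε) ^ k := by positivity
  have d0 : 0 < ε / Lam := by positivity
  have d1 : ε / Lam ≤ ε := div_le_self h0.le hL
  have d2 : (1 - ε / Lam) ^ (k + 1) ≤ 1 := pow_le_one₀ (by linarith) (by linarith)
  by_cases hc : (1 - ε / Lam) ^ (k + 1) ≤ 1 / 2
  · linarith
  · push Not at hc
    have a1 : ((k : ℝ) + 1) * (ε / Lam) < 1 := by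
      have b1 := one_add_mul_le_pow (a := ε / Lam) (by linarith) (k + 1)
      have b2 : (1 - ε / Lam) ^ (k + 1) * (1 + ε / Lam) ^ (k + 1) ≤ 1 := by
        rw [← mul_pow]
        exact pow_le_one₀ (by nlinarith) (by nlinarith)
      push_cast at b1
      nlinarith
    have a2 : (k : ℝ) * ε ≤ Lam := by
      rw [← mul_div_assoc, div_lt_one (by linarith)] at a1
      nlinarith
    set E := Real.exp (2 * Lam) with hE
    have hE0 : 0 < E := Real.exp_pos _
    have a3 : E⁻¹ ≤ (1 - ε) ^ k := by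
      have b1 : Real.exp (-(2 * ε)) ≤ 1 - ε := by
        rw [Real.exp_neg]
        refine inv_le_of_inv_le₀ hs (le_trans ?_ (Real.add_one_le_exp (2 * ε)))
        rw [inv_le_iff_one_le_mul₀ hs]
        nlinarith
      refine le_trans ?_ (pow_le_pow_left₀ (Real.exp_pos _).le b1 k)
      rw [← Real.exp_nat_mul, hE, ← Real.exp_neg, Real.exp_le_exp]
      linarith
    have a4 : 5 / 3 ≤ ((k : ℝ) + 1) * (1 - ε) ^ k := by
      by_cases hkE : 2 * E ≤ k + 1
      · have : 2 * E * E⁻¹ ≤ ((k : ℝ) + 1) * (1 - ε) ^ k := by gcongr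
        rw [mul_assoc, mul_inv_cancel₀ hE0.ne'] at this
        linarith
      · push Not at hkE
        have b1 := one_add_mul_le_pow (a := -ε) (by linarith) k
        have b2 : ε * (48 * E) ≤ 1 := by
          rw [eps0, le_div_iff₀ (by positivity)] at h1
          exact h1
        have b3 : (1 : ℝ) ≤ k := by exact_mod_cast Nat.one_le_iff_ne_zero.2 hk
        have b4 : 5 / 6 ≤ (1 - ε) ^ k := by
          rw [← sub_eq_add_neg] at b1
          nlinarith
        nlinarith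
    linarith

theorem K_le {M : ℝ} (h0 : 0 < ε) (h1 : ε ≤ 1 / 2) (hM : ∀ k : ℕ, (k + 1) * (1 - ε) ^ k ≤ M) :
    1 / (Real.exp 1 * ε * (1 - ε)) ≤ M + 2 ∧ 1 / (6 * ε) ≤ M := by
  obtain ⟨n, hn⟩ := exists_p_ge h0 (by linarith)
  have h2 := hn.trans (hM n)
  have e1 : 2 ≤ Real.exp 1 := by linarith [Real.add_one_le_exp 1]
  have e2 : Real.exp 1 ≤ 3 := by linarith [Real.exp_one_lt_d9]
  have hs : 0 < 1 - ε := by linarith
  constructor
  · have : 1 / (Real.exp 1 * ε * (1 - ε))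
        = (1 - ε) / (Real.exp 1 * ε) + (2 - ε) / (Real.exp 1 * (1 - ε)) := by
      field_simp; ring
    rw [this]
    have : (2 - ε) / (Real.exp 1 * (1 - ε)) ≤ 2 := by
      rw [div_le_iff₀ (by positivity)]; nlinarith
    linarith
  · refine le_trans ?_ h2
    rw [div_le_div_iff₀ (by positivity) (by positivity)]
    nlinarith

theorem P2 {M : ℝ} (h0 : 0 < ε) (h1 : ε ≤ 1 / 48) (hM : ∀ k : ℕ, (k + 1) * (1 - ε) ^ k ≤ M)
    (k : ℕ) : (k + 1) * (1 - ε) ^ k + 3 * (1 - (1 - ε / Lam) ^ (k + 1))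
      ≤ M + 12 / Lam - (M - (k + 1) * (1 - ε) ^ k) / 2 := by
  have hL : (1 : ℝ) ≤ Lam := by unfold Lam; norm_num
  have d0 : 0 < ε / Lam := by positivity
  have d1 : ε / Lam ≤ ε := div_le_self h0.le hL
  have hp := hM k
  by_cases hx : ((k : ℝ) + 1) * ε ≤ 4
  · have b1 := one_add_mul_le_pow (a := -(ε / Lam)) (by linarith) (k + 1)
    rw [← sub_eq_add_neg] at b1
    push_cast at b1
    have b2 : ((k : ℝ) + 1) * (ε / Lam) ≤ 4 / Lam := by
      rw [← mul_div_assoc]; gcongr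
    have b3 : 12 / Lam = 3 * (4 / Lam) := by ring
    linarith
  · push Not at hx
    have b0 : 0 ≤ (1 - ε / Lam) ^ (k + 1) := pow_nonneg (by linarith) _
    have b1 := p_le h0 (by linarith) k
    have b2 := (K_le h0 (by linarith) hM).1
    set K := 1 / (Real.exp 1 * ε * (1 - ε)) with hK
    set x := ((k : ℝ) + 1) * ε with hxdef
    have b3 : x * Real.exp (1 - x) ≤ 1 / 2 := by
      have c1 := Real.quadratic_le_exp_of_nonneg (x := x - 1) (by linarith)
      have c2 : Real.exp (1 - x) = (Real.exp (x - 1))⁻¹ := by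
        rw [← Real.exp_neg]; congr 1; ring
      rw [c2, ← div_eq_mul_inv, div_le_iff₀ (Real.exp_pos _)]
      nlinarith
    have b4 : 16 ≤ K := by
      have e2 : Real.exp 1 ≤ 3 := by linarith [Real.exp_one_lt_d9]
      have e3 := Real.exp_pos 1
      have hs : 0 < 1 - ε := by linarith
      rw [hK, le_div_iff₀ (by positivity)]
      have : Real.exp 1 * ε ≤ 1 / 16 := by nlinarith
      nlinarith [mul_pos e3 h0]
    have b5 : K * (x * Real.exp (1 - x)) ≤ K * (1 / 2) := by gcongr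
    have b6 : 0 < 12 / Lam := by positivity
    linarith

theorem P3 {M : ℝ} (h0 : 0 < ε) (h1 : ε ≤ 1 / 2) (hM : ∀ k : ℕ, (k + 1) * (1 - ε) ^ k ≤ M)
    (k : ℕ) : (k + 1) * (1 - ε) ^ k * ((k + 1) * ε - 1) ^ 2
      ≤ 6 * (M - (k + 1) * (1 - ε) ^ k) + 12 := by
  have b1 := p_le h0 (by linarith) k
  have b2 := (K_le h0 h1 hM).1
  set K := 1 / (Real.exp 1 * ε * (1 - ε)) with hK
  have hK0 : 0 ≤ K := by
    have hs : 0 < 1 - ε := by linarith
    positivity
  set x := ((k : ℝ) + 1) * ε with hxdef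
  have hx0 : 0 ≤ x := by positivity
  have b3 : x * Real.exp (1 - x) * (x - 1) ^ 2 ≤ 6 * (1 - x * Real.exp (1 - x)) := by
    have c1 := exp_cubic (u := x - 1) (by linarith)
    have c2 : Real.exp (1 - x) * Real.exp (x - 1) = 1 := by
      rw [← Real.exp_add]; simp
    have c3 := mul_le_mul_of_nonneg_left c1 (Real.exp_pos (1 - x)).le
    nlinarith
  have b4 := mul_le_mul_of_nonneg_right b1 (sq_nonneg (x - 1))
  have b5 := mul_le_mul_of_nonneg_left b3 hK0
  nlinarith

/-- The dual estimate. -/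
theorem dual_estimate {α β : ℕ → ℝ} (hα0 : ∀ k, 0 ≤ α k) (hβ0 : ∀ k, 0 ≤ β k)
    (hα : HasSum (fun k => α k / (k + 1)) 1) (hβ : HasSum (fun k => β k / (k + 1)) 1)
    (h0 : 0 < ε) (h1 : ε ≤ eps0) {ψ : ℝ} (hψ : 0 < ψ)
    (hψp : ∀ k : ℕ, ψ * ((k + 1) * (1 - ε) ^ k) ≤ 1)
    (hsα : ∀ t, 0 ≤ t → t < 1 → Summable fun k => α k * t ^ k)
    (hsβ : ∀ t, 0 ≤ t → t < 1 → Summable fun k => β k * t ^ k)
    (hdom : ∀ t, 1 - ε ≤ t → t < 1 → ∑' k, α k * t ^ k ≤ ψ * ∑' k, β k * t ^ k) :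
    ψ ≤ 6 * ε ∧ (∑' k, α k * (1 - ε) ^ k) - α 0 ≤ 48 / Lam * ψ ∧ 1 - α 0 ≤ 48 / Lam * ψ ∧
      ∀ Z, HasSum (fun k => β k * (1 - ε) ^ k * ((k + 1) * ε - 1) ^ 2) Z → Z ≤ 24 := by
  have h2 := h1.trans eps0_le
  have hL : (12 : ℝ) ≤ Lam := by unfold Lam; norm_num
  have hs : 0 < 1 - ε := by linarith
  have d0 : 0 < ε / Lam := by positivity
  have d1 : ε / Lam ≤ ε := div_le_self h0.le (by linarith)
  set M := ψ⁻¹ with hMdef
  have hψM : ψ * M = 1 := mul_inv_cancel₀ hψ.ne'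
  have hM : ∀ k : ℕ, (k + 1) * (1 - ε) ^ k ≤ M := fun k => by
    rw [hMdef, ← one_div, le_div_iff₀' hψ]; exact hψp k
  have hk1 : ∀ k : ℕ, (0 : ℝ) < k + 1 := fun k => by positivity
  have c0 : ψ ≤ 6 * ε := by
    have := (K_le h0 (by linarith) hM).2
    rw [hMdef, ← one_div] at this
    exact le_of_one_div_le_one_div (by positivity) this
  have sA := (hsα (1 - ε) hs.le (by linarith)).hasSum
  have sB := (hsβ (1 - ε) hs.le (by linarith)).hasSum
  set A := ∑' k, α k * (1 - ε) ^ k with hA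
  set B := ∑' k, β k * (1 - ε) ^ k with hB
  set ρ := 1 - ε / Lam with hρ
  have ρ0 : 0 ≤ ρ := by linarith
  have ρ1 : ρ < 1 := by linarith
  have tsum : ∀ γ : ℕ → ℝ, (∀ k, 0 ≤ γ k) → Summable (fun k => γ k / (k + 1)) →
      Summable fun k => γ k * ((1 - ρ ^ (k + 1)) / (k + 1)) := by
    intro γ hγ hs
    refine Summable.of_nonneg_of_le (fun k => mul_nonneg (hγ k) (div_nonneg
      (sub_nonneg.2 (pow_le_one₀ ρ0 ρ1.le)) (hk1 k).le)) (fun k => ?_) hs
    rw [mul_div_assoc']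
    have := pow_nonneg ρ0 (k + 1)
    have := hγ k
    gcongr
    nlinarith
  have tA := (tsum α hα0 hα.summable).hasSum
  have tB := (tsum β hβ0 hβ.summable).hasSum
  set A' := ∑' k, α k * ((1 - ρ ^ (k + 1)) / (k + 1)) with hA'
  set B' := ∑' k, β k * ((1 - ρ ^ (k + 1)) / (k + 1)) with hB'
  have i1 : A ≤ ψ * B := hdom (1 - ε) le_rfl (by linarith)
  have i2 : A' ≤ ψ * B' := by
    have := tail_nonneg (γ := fun k => ψ * β k - α k) (by
      refine Summable.of_nonneg_of_le (fun k => by positivity) (fun k => ?_)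
        ((hβ.summable.mul_left ψ).add hα.summable)
      rw [mul_div_assoc', ← add_div]
      gcongr
      have := mul_nonneg hψ.le (hβ0 k)
      have := hα0 k
      rw [abs_le]; constructor <;> linarith) ρ0 ρ1 (fun t ht1 ht2 => by
      have ht0 : 0 ≤ t := ρ0.trans ht1.le
      have e := (((hsβ t ht0 ht2).hasSum.mul_left ψ).sub (hsα t ht0 ht2).hasSum)
      rw [(hasSum_congr e fun k => by ring).tsum_eq]
      linarith [hdom t (by linarith) ht2])
    rw [(hasSum_congr ((tB.mul_left ψ).sub tA) fun k => by ring).tsum_eq] at this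
    linarith
  have i3 : A / 4 + 5 / 4 - α 0 / 2 ≤ A + 3 * A' := by
    have e1 := ((sA.div_const 4).add (hα.mul_left (5 / 4))).sub
      (hasSum_ite_eq (0 : ℕ) (α 0 / 2))
    rw [mul_one] at e1
    refine hasSum_le (fun k => ?_) e1 (sA.add (tA.mul_left 3))
    split_ifs with hk
    · subst hk
      have := mul_nonneg (hα0 0) (sub_nonneg.2 ρ1.le)
      simp only [pow_zero, Nat.cast_zero, zero_add, pow_one, div_one]
      linarith
    · have := mul_le_mul_of_nonneg_left (P1 h0 h1 k hk) (div_nonneg (hα0 k) (hk1 k).le)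
      have e2 : α k / (k + 1) * ((k + 1) * (1 - ε) ^ k / 4 + 5 / 4)
          = α k * (1 - ε) ^ k / 4 + 5 / 4 * (α k / (k + 1)) - 0 := by
        field_simp [(hk1 k).ne']; ring
      have e3 : α k / (k + 1) * ((k + 1) * (1 - ε) ^ k + 3 * (1 - ρ ^ (k + 1)))
          = α k * (1 - ε) ^ k + 3 * (α k * ((1 - ρ ^ (k + 1)) / (k + 1))) := by
        field_simp [(hk1 k).ne']
      rw [e2, e3] at this
      exact this
  have i4 : B + 3 * B' ≤ M / 2 + 12 / Lam + B / 2 := by
    have e1 := (hβ.mul_left (M / 2 + 12 / Lam)).add (sB.div_const 2)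
    rw [mul_one] at e1
    refine hasSum_le (fun k => ?_) (sB.add (tB.mul_left 3)) e1
    have := mul_le_mul_of_nonneg_left (P2 h0 h2 hM k) (div_nonneg (hβ0 k) (hk1 k).le)
    have e2 : β k / (k + 1) * (M + 12 / Lam - (M - (k + 1) * (1 - ε) ^ k) / 2)
        = (M / 2 + 12 / Lam) * (β k / (k + 1)) + β k * (1 - ε) ^ k / 2 := by
      field_simp [(hk1 k).ne']; ring
    have e3 : β k / (k + 1) * ((k + 1) * (1 - ε) ^ k + 3 * (1 - ρ ^ (k + 1)))
        = β k * (1 - ε) ^ k + 3 * (β k * ((1 - ρ ^ (k + 1)) / (k + 1))) := by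
      field_simp [(hk1 k).ne']
    rw [e2, e3] at this
    exact this
  have i5 : B ≤ M := by
    have e1 := hβ.mul_left M
    rw [mul_one] at e1
    refine hasSum_le (fun k => ?_) sB e1
    have := mul_le_mul_of_nonneg_left (hM k) (div_nonneg (hβ0 k) (hk1 k).le)
    have e2 : β k / (k + 1) * ((k + 1) * (1 - ε) ^ k) = β k * (1 - ε) ^ k := by
      field_simp [(hk1 k).ne']
    rw [e2, mul_comm _ M] at this
    exact this
  have i6 : α 0 ≤ A := by
    have := le_hasSum sA 0 fun k _ => mul_nonneg (hα0 k) (pow_nonneg hs.le k)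
    simpa using this
  have i7 : α 0 ≤ 1 := by
    have := le_hasSum hα 0 fun k _ => div_nonneg (hα0 k) (hk1 k).le
    simpa using this
  have i8 := mul_le_mul_of_nonneg_left i4 hψ.le
  have i9 := mul_le_mul_of_nonneg_left i5 hψ.le
  have key : (A - α 0) / 4 + (1 - α 0) / 4 + (1 - ψ * B) / 2 ≤ 12 / Lam * ψ := by
    nlinarith
  have e48 : 48 / Lam * ψ = 4 * (12 / Lam * ψ) := by ring
  refine ⟨c0, by linarith, by linarith, fun Z hZ => ?_⟩
  have j1 : Z ≤ 6 * M + 12 - 6 * B := by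
    have e1 := (hβ.mul_left (6 * M + 12)).sub (sB.mul_left 6)
    rw [mul_one] at e1
    refine hasSum_le (fun k => ?_) hZ e1
    have := mul_le_mul_of_nonneg_left (P3 h0 (by linarith) hM k) (div_nonneg (hβ0 k) (hk1 k).le)
    have e2 : β k / (k + 1) * ((k + 1) * (1 - ε) ^ k * ((k + 1) * ε - 1) ^ 2)
        = β k * (1 - ε) ^ k * ((k + 1) * ε - 1) ^ 2 := by
      field_simp [(hk1 k).ne']
    have e3 : β k / (k + 1) * (6 * (M - (k + 1) * (1 - ε) ^ k) + 12)
        = (6 * M + 12) * (β k / (k + 1)) - 6 * (β k * (1 - ε) ^ k) := by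
      field_simp [(hk1 k).ne']; ring
    rw [e2, e3] at this
    exact this
  have j2 : 12 / Lam ≤ 1 / 1 := by
    rw [div_le_div_iff₀ (by linarith) one_pos]; linarith
  have j3 : ψ * (M - B) ≤ ψ * 2 := by nlinarith
  have j4 := le_of_mul_le_mul_left j3 hψ
  linarith

end

end Pool.Agent.P.MP_99f05c_an
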