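import Pool.Agent.P.MP_99f05c_an.Compact

/-! Non-uniqueness of extremal pairs. -/

set_option autoImplicit false

open Set Filter Topology MeasureTheory Metric Complex
open scoped Real ENNReal

namespace Pool.Agent.P.MP_99f05c_an

/-- Real form of extremality. -/
def Ext (c : ℝ) (f g : ℂ → ℂ) : Prop := f ∈ S1 ∧ g ∈ S1 ∧ Dom c (Fr c) f g

theorem Dom.mono {c φ φ' : ℝ} {f g : ℂ → ℂ} (h : Dom c φ f g) (hφ : φ ≤ φ') : Dom c φ' f g :=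
  fun z h1 h2 => (h z h1 h2).trans (by gcongr)

theorem S1_ne {f : ℂ → ℂ} (hf : f ∈ S1) {c : ℝ} (hc0 : 0 < c) (hc1 : c < 1) :
    ∃ z, ‖z‖ = c ∧ f z ≠ 0 := by
  by_contra h
  push Not at h
  obtain ⟨a, ha, ha1⟩ := exists_unit1 hf
  have h0 := ha.eq_zero_of_annulus hc0 hc1 h
  have : HasSum (fun k => ‖a k‖ ^ 2 / ((k : ℝ) + 1)) 0 := by simp [h0]
  exact one_ne_zero (ha1.unique this)

theorem exists_ext {c : ℝ} (hc0 : 0 < c) (hc1 : c < 1) (hF : Fr c < 1) : ∃ f g, Ext c f g := by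
  obtain ⟨u, -, hu, hmem⟩ := exists_seq_tendsto_sInf (Fr_nonempty c) ⟨0, fun _ h => h.1⟩
  choose fs hfs gs hgs hd using fun n => (hmem n).2
  obtain ⟨f, hf, g, hg, hdom, -⟩ := limit_pair hc0 hc1 hF le_rfl (cs := fun _ => c)
    tendsto_const_nhds hu (Fr_nonneg c) hfs hgs hd
  exact ⟨f, g, hf, hg, hdom⟩

theorem Ext.pos {c : ℝ} {f g : ℂ → ℂ} (h : Ext c f g) (hc0 : 0 < c) (hc1 : c < 1) : 0 < Fr c := by
  refine lt_of_le_of_ne (Fr_nonneg c) fun h0 => ?_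
  obtain ⟨z, hz, hne⟩ := S1_ne h.1 hc0 hc1
  have := h.2.2 z hz.ge (by linarith)
  rw [← h0, zero_mul] at this
  exact hne (norm_le_zero_iff.1 this)

theorem Fr_lt_one {c : ℝ} (hc0 : 0 < c) (hε : 1 - c ^ 2 ≤ eps0) : Fr c < 1 := by
  have h1 := Fr_mul_le hc0 1
  have h2 := hε.trans eps0_le
  by_contra h
  push Not at h
  have h3 : 1 ≤ Fr c ^ 2 := one_le_pow₀ h
  norm_num at h1
  nlinarith

theorem Ext.est {c : ℝ} {f g : ℂ → ℂ} (h : Ext c f g) (hc0 : 0 < c) (hc1 : c < 1)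
    (hε : 1 - c ^ 2 ≤ eps0) :
    Fr c ^ 2 ≤ 6 * (1 - c ^ 2) ∧ 3 / 4 ≤ ‖f 0‖ ∧ ∀ z, ‖z‖ = c → g z ≠ 0 :=
  no_zero hc0 hc1 hε (h.pos hc0 hc1) (Fr_mul_le hc0) h.1 h.2.1 h.2.2

theorem annulus_subset {U : Set ℂ} (hU : IsOpen U) {c : ℝ} (hc0 : 0 < c)
    (h : ∀ z, ‖z‖ = c → z ∈ U) : ∃ r < c, ∀ z, r ≤ ‖z‖ → ‖z‖ ≤ c → z ∈ U := by
  obtain ⟨δ, hδ, hsub⟩ := (isCompact_sphere (0 : ℂ) c).exists_cthickening_subset_open hU
    fun z hz => h z (by simpa using hz)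
  refine ⟨max (c - δ) (c / 2), max_lt (by linarith) (by linarith), fun z z1 z2 => ?_⟩
  have z3 := (le_max_left _ _).trans z1
  have z0 : 0 < ‖z‖ := by linarith [(le_max_right _ _).trans z1]
  refine hsub (mem_cthickening_of_dist_le z (((c / ‖z‖ : ℝ) : ℂ) * z) δ _ ?_ ?_)
  · rw [mem_sphere_zero_iff_norm, norm_mul, norm_real, Real.norm_of_nonneg (by positivity),
      div_mul_cancel₀ _ z0.ne']
  · have : z - ((c / ‖z‖ : ℝ) : ℂ) * z = (((‖z‖ - c) / ‖z‖ : ℝ) : ℂ) * z := by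
      have : ((‖z‖ : ℝ) : ℂ) ≠ 0 := by exact_mod_cast z0.ne'
      push_cast; field_simp
    rw [dist_eq_norm, this, norm_mul, norm_real, Real.norm_eq_abs, abs_div, abs_of_pos z0,
      div_mul_cancel₀ _ z0.ne', abs_le]
    constructor <;> linarith

theorem Ext.usc {c : ℝ} {f g : ℂ → ℂ} (h : Ext c f g) (hc0 : 0 < c) (hc1 : c < 1)
    (hne : ∀ z, ‖z‖ = c → g z ≠ 0) {η : ℝ} (hη : 0 < η) :
    ∀ᶠ c' in 𝓝 c, Fr c' ≤ Fr c + η := by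
  have hc : ContinuousOn (fun z => (Fr c + η) * ‖g z‖ - ‖f z‖) (ball (0 : ℂ) 1) :=
    (continuousOn_const.mul h.2.1.1.1.continuousOn.norm).sub h.1.1.1.continuousOn.norm
  obtain ⟨r, hr, hsub⟩ := annulus_subset (hc.isOpen_inter_preimage isOpen_ball isOpen_Ioi) hc0
    fun z hz => ⟨by rw [mem_ball_zero_iff, hz]; exact hc1, show (0 : ℝ) < _ by
      have := h.2.2 z hz.ge (by linarith)
      have := mul_pos hη (norm_pos_iff.2 (hne z hz))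
      linarith⟩
  filter_upwards [Ioi_mem_nhds hr] with c' hc'
  refine Fr_le (by linarith [Fr_nonneg c]) h.1 h.2.1 fun z z1 z2 => ?_
  rcases le_total c ‖z‖ with z3 | z3
  · exact (h.2.2.mono (by linarith)) z z3 z2
  · have : (0 : ℝ) < (Fr c + η) * ‖g z‖ - ‖f z‖ := (hsub z (le_trans (le_of_lt hc') z1) z3).2
    linarith

theorem ratioSup_le_iff {c φ : ℝ} {f g : ℂ → ℂ} (hc0 : 0 < c) (hφ : 0 ≤ φ) (hf : f ∈ S1)
    (hg : g ∈ S1) : ratioSup c f g ≤ ENNReal.ofReal φ ↔ Dom c φ f g := by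
  have e : ∀ z, g z ≠ 0 → (‖f z / g z‖ₑ ≤ ENNReal.ofReal φ ↔ ‖f z‖ ≤ φ * ‖g z‖) := by
    intro z hz
    rw [← ofReal_norm, ENNReal.ofReal_le_ofReal_iff hφ, norm_div,
      div_le_iff₀ (norm_pos_iff.2 hz)]
  simp only [ratioSup, iSup_le_iff]
  constructor
  · intro h
    obtain ⟨z0, hz0, hne⟩ := S1_ne hg (c := 1 / 2) (by norm_num) (by norm_num)
    refine dom_of_eventually hc0 hf.1.1 hg.1.1 fun z hz => ?_
    filter_upwards [eventually_ne hg.1.1 (by linarith) hne hz] with w hw h1 h2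
    exact (e w hw).1 (h w ⟨h1.le, h2, hw⟩)
  · intro h z hz
    exact (e z hz.2.2).2 (h z hz.1 hz.2.1)

theorem Ext.isExtremal {c : ℝ} {f g : ℂ → ℂ} (h : Ext c f g) (hc0 : 0 < c) :
    IsExtremal c f g := by
  refine ⟨h.1, h.2.1, le_antisymm ?_ ?_⟩
  · refine ((ratioSup_le_iff hc0 (Fr_nonneg c) h.1 h.2.1).2 h.2.2).trans ?_
    simp only [Fval, le_iInf_iff]
    intro f' hf' g' hg'
    by_cases ht : ratioSup c f' g' = ∞
    · rw [ht]; exact le_top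
    · rw [← ENNReal.ofReal_toReal ht]
      exact ENNReal.ofReal_le_ofReal (Fr_le ENNReal.toReal_nonneg hf' hg'
        ((ratioSup_le_iff hc0 ENNReal.toReal_nonneg hf' hg').1 (ENNReal.ofReal_toReal ht).ge))
  · exact (iInf₂_le f h.1).trans (iInf₂_le g h.2.1)

theorem kappa_le {c : ℝ} (hc0 : 0 < c) (hc1 : c < 1) (hF : Fr c < 1) : kappa ≤ c := by
  obtain ⟨f, g, h⟩ := exists_ext hc0 hc1 hF
  have hp := h.pos hc0 hc1
  refine Real.sSup_le (fun c' hc' => ?_) hc0.le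
  by_contra hlt
  push Not at hlt
  obtain ⟨a, ha, ha1⟩ := exists_unit1 h.1
  have h2 : Rep (fun z => (((Fr c)⁻¹ : ℝ) : ℂ) * f z) (fun k => (((Fr c)⁻¹ : ℝ) : ℂ) * a k) :=
    fun z hz => hasSum_congr ((ha z hz).mul_left _) fun k => by ring
  have h3 : HasSum (fun k => ‖(((Fr c)⁻¹ : ℝ) : ℂ) * a k‖ ^ 2 / (k + 1)) ((Fr c)⁻¹ ^ 2 * 1) :=
    hasSum_congr (ha1.mul_left _) fun k => by
      rw [norm_mul, mul_pow, norm_real, Real.norm_eq_abs, sq_abs]; ring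
  have h4 := hc'.2.2 _ g (h2.isA2_iff.2 h3.summable) h.2.1.1 fun z z1 z2 => by
    rw [norm_mul, norm_real, Real.norm_of_nonneg (inv_pos.2 hp).le, inv_mul_le_iff₀ hp]
    exact h.2.2 z (by linarith) z2
  rw [h2.bnorm_eq h3, h.2.1.2, mul_one, Real.sqrt_sq (inv_pos.2 hp).le,
    inv_le_one_iff₀] at h4
  rcases h4 with h4 | h4 <;> linarith

theorem Zc.equiv {f₁ g₁ f₂ g₂ : ℂ → ℂ} {r : ℝ} {N : ℕ} (h : Zc g₁ r r N)
    (he : PairEquiv f₁ g₁ f₂ g₂) : Zc g₂ r r N := by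
  obtain ⟨α, β, θ, f, g, hfg, he⟩ := he
  have h2 : Zc g r r N := by
    rcases hfg with ⟨-, rfl⟩ | ⟨-, rfl⟩
    · exact h
    · exact h.reflect
  exact h2.rotate (exp_ne_zero (β * I)) (norm_exp_ofReal_mul_I θ)
    fun z hz => (he z (by simpa using hz)).2

theorem nonunique (c₁ : ℝ) (hc₁ : c₁ < 1) : ∃ c : ℝ, c₁ < c ∧ kappa < c ∧ c < 1 ∧
    ∃ f₁ g₁ f₂ g₂ : ℂ → ℂ, IsExtremal c f₁ g₁ ∧ IsExtremal c f₂ g₂ ∧
      ¬ PairEquiv f₁ g₁ f₂ g₂ := by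
  by_contra hcon
  push Not at hcon
  have e0 := eps0_pos
  have e1 := eps0_le
  set c₀ := max c₁ (1 - eps0 / 2) with hc₀
  have c01 : c₀ < 1 := max_lt hc₁ (by linarith)
  have c02 : 1 - eps0 / 2 ≤ c₀ := le_max_right _ _
  have good : ∀ c, c₀ ≤ c → c < 1 → 0 < c ∧ 1 - c ^ 2 ≤ eps0 := fun c h1 h2 =>
    ⟨by linarith, by nlinarith⟩
  have hk : kappa ≤ c₀ := kappa_le (good c₀ le_rfl c01).1 c01
    (Fr_lt_one (good c₀ le_rfl c01).1 (good c₀ le_rfl c01).2)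
  have ex : ∀ c : ℝ, ∃ (f g : ℂ → ℂ) (N : ℕ), c ∈ Ioo c₀ 1 → Ext c f g ∧ Zc g c c N := by
    intro c
    by_cases hc : c ∈ Ioo c₀ 1
    · obtain ⟨h1, h2⟩ := good c hc.1.le hc.2
      obtain ⟨f, g, h⟩ := exists_ext h1 hc.2 (Fr_lt_one h1 h2)
      obtain ⟨N, hN⟩ := exists_Zc h.2.1.1.1 h1.le hc.2 (h.est h1 hc.2 h2).2.2
      exact ⟨f, g, N, fun _ => ⟨h, hN⟩⟩
    · exact ⟨0, 0, 0, fun h => absurd h hc⟩
  choose F G N hFGN using ex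
  have uniq : ∀ c ∈ Ioo c₀ 1, ∀ f g, Ext c f g → Zc g c c (N c) := fun c hc f g h =>
    (hFGN c hc).2.equiv (hcon c ((le_max_left _ _).trans_lt hc.1) (hk.trans_lt hc.1) hc.2 _ _ _ _
      ((hFGN c hc).1.isExtremal (good c hc.1.le hc.2).1) (h.isExtremal (good c hc.1.le hc.2).1))
  have loc : ∀ c ∈ Ioo c₀ 1, ∀ᶠ c' in 𝓝 c, c' ∈ Ioo c₀ 1 → N c' = N c := by
    intro c hc
    obtain ⟨h1, h2⟩ := good c hc.1.le hc.2
    by_contra hfr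
    rw [not_eventually] at hfr
    obtain ⟨cs, hcs, hcs'⟩ := exists_seq_forall_of_frequently hfr
    push Not at hcs'
    obtain ⟨φ, hφ, ψ, hψ, hlim⟩ := isCompact_Icc.tendsto_subseq (s := Icc (0 : ℝ) 1)
      (x := fun n => Fr (cs n)) fun n => ⟨Fr_nonneg _, (Fr_lt_one
        (good _ (hcs' n).1.1.le (hcs' n).1.2).1 (good _ (hcs' n).1.1.le (hcs' n).1.2).2).le⟩
    have hcs2 := hcs.comp hψ.tendsto_atTop
    have hφF : φ ≤ Fr c := le_of_forall_pos_le_add fun η hη => le_of_tendsto hlim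
      (hcs2.eventually ((hFGN c hc).1.usc h1 hc.2 ((hFGN c hc).1.est h1 hc.2 h2).2.2 hη))
    obtain ⟨f, hf, g, hg, hd, χ, hχ, hu⟩ := limit_pair h1 hc.2 (hφF.trans_lt (Fr_lt_one h1 h2))
      hφF hcs2 hlim hφ.1 (fun n => (hFGN _ (hcs' (ψ n)).1).1.1)
      (fun n => (hFGN _ (hcs' (ψ n)).1).1.2.1) (fun n => (hFGN _ (hcs' (ψ n)).1).1.2.2)
    have hE : Ext c f g := ⟨hf, hg, hd.mono hφF⟩
    obtain ⟨r₁, r₂, η, a1, a2, a3, a4, hst⟩ := Zc_stable hg.1.1 h1 hc.2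
      (hE.est h1 hc.2 h2).2.2 (uniq c hc f g hE)
    obtain ⟨n, b1, b2⟩ := ((hu r₂ a3 η a4).and
      ((hcs2.comp hχ.tendsto_atTop).eventually (Ioo_mem_nhds a1 a2))).exists
    exact (hcs' (ψ (χ n))).2 (hst _ _ _ (hFGN _ (hcs' (ψ (χ n))).1).1.2.1.1.1 b2.1.le b2.2.le
      (hFGN _ (hcs' (ψ (χ n))).1).2 b1)
  have hcont : ContinuousOn N (Ioo c₀ 1) := fun c hc => by
    refine (continuousWithinAt_const (b := N c)).congr_of_eventuallyEq ?_ rfl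
    filter_upwards [mem_nhdsWithin_of_mem_nhds (loc c hc), self_mem_nhdsWithin] with c' h1 h2
    exact h1 h2
  obtain ⟨c₂, hc₂⟩ := nonempty_Ioo.2 c01
  set N₀ := N c₂ with hN₀
  obtain ⟨c, d1, d2⟩ := exists_between (max_lt c01
    (show 1 - 1 / (400 * 16 ^ N₀) < (1 : ℝ) by
      have : (0 : ℝ) < 1 / (400 * 16 ^ N₀) := by positivity
      linarith))
  have hc : c ∈ Ioo c₀ 1 := ⟨(le_max_left _ _).trans_lt d1, d2⟩
  have d3 := (le_max_right _ _).trans_lt d1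
  obtain ⟨h1, h2⟩ := good c hc.1.le hc.2
  have hN : N c = N₀ := isPreconnected_Ioo.constant hcont hc hc₂
  obtain ⟨hE, hZ⟩ := hFGN c hc
  obtain ⟨k1, k2, -⟩ := hE.est h1 hc.2 h2
  have k3 := hZ.growth h1 hc.2 (Fr_nonneg c) hE.1.1.1
    (fun z hz => hE.2.2 z hz.ge (by linarith)) (fun z hz => S1_half hE.2.1 hz)
  rw [hN] at k3
  have k4 := pow_le_pow_left₀ (by norm_num) (k2.trans k3) 2
  have k5 : (Fr c * 4 ^ N₀ * 4) ^ 2 = Fr c ^ 2 * (16 * 16 ^ N₀) := by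
    rw [show (16 : ℝ) ^ N₀ = 4 ^ N₀ * 4 ^ N₀ by rw [← mul_pow]; norm_num]; ring
  have k6 : Fr c ^ 2 ≤ 12 * (1 / (400 * 16 ^ N₀)) := by nlinarith
  have k7 : Fr c ^ 2 * (16 * 16 ^ N₀) ≤ 12 * (1 / (400 * 16 ^ N₀)) * (16 * 16 ^ N₀) := by gcongr
  have k8 : 12 * (1 / (400 * 16 ^ N₀)) * (16 * 16 ^ N₀) = (12 * 16 / 400 : ℝ) := by field_simp
  rw [k5] at k4
  rw [k8] at k7
  norm_num at k4 k7
  linarith

end Pool.Agent.P.MP_99f05c_an
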