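import Pool.Agent.P.MP_99f05c_an.Estimate

/-! Near-extremal denominators have no zero on the circle `|z| = c`. -/

set_option autoImplicit false

open Set Filter Topology MeasureTheory Metric Complex
open scoped Real

namespace Pool.Agent.P.MP_99f05c_an

/-- `|f| ≤ φ |g|` on `c ≤ |z| < 1`. -/
def Dom (c φ : ℝ) (f g : ℂ → ℂ) : Prop :=
  ∀ z : ℂ, c ≤ ‖z‖ → ‖z‖ < 1 → ‖f z‖ ≤ φ * ‖g z‖

theorem Rep.deriv {g : ℂ → ℂ} {b : ℕ → ℂ} (h : Rep g b) :
    Rep (fun z => z * deriv g z) (fun k => k * b k) := by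
  intro z hz
  obtain ⟨r, hr1, hr2⟩ := exists_between hz
  have hr0 : 0 ≤ r := (norm_nonneg z).trans hr1.le
  have h1 := hasSum_deriv_of_summable_norm (F := fun k w => b k * w ^ k) (U := ball 0 r)
    (h.summable_norm hr0 hr2) (fun k => by fun_prop) isOpen_ball (fun k w hw => by
      rw [norm_mul, norm_pow]
      have : ‖w‖ ≤ r := le_of_lt (by simpa using hw)
      gcongr) (z := z) (by simpa using hr1)
  have h2 : (fun w => ∑' k, b k * w ^ k) =ᶠ[𝓝 z] g := by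
    filter_upwards [isOpen_ball.mem_nhds (show z ∈ ball (0 : ℂ) 1 by simpa using hz)] with w hw
    exact (h w (by simpa using hw)).tsum_eq
  rw [h2.deriv_eq] at h1
  refine hasSum_congr (h1.mul_left z) fun k => ?_
  rw [deriv_const_mul_field, deriv_pow_field]
  rcases k with _ | k
  · simp
  · simp only [Nat.add_sub_cancel]; ring

theorem Rep.sq_tsum {f : ℂ → ℂ} {a : ℕ → ℂ} (h : Rep f a) {r : ℝ} (hr0 : 0 ≤ r) (hr : r < 1)
    (x : ℝ) : HasSum (fun k => ‖a k‖ ^ 2 * (r ^ 2) ^ k)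
      ((∫ θ in x..(x + 2 * π), ‖f (r * exp (θ * I))‖ ^ 2) / (2 * π)) :=
  hasSum_congr ((h.parseval hr0 hr x).div_const (2 * π)) fun k => by field_simp

theorem Rep.sq_hasSum {f : ℂ → ℂ} {a : ℕ → ℂ} (h : Rep f a) {t : ℝ} (h0 : 0 ≤ t) (h1 : t < 1) :
    HasSum (fun k => ‖a k‖ ^ 2 * t ^ k)
      ((∫ θ in (0 : ℝ)..(0 + 2 * π), ‖f ((√t : ℝ) * exp (θ * I))‖ ^ 2) / (2 * π)) := by
  have := h.sq_tsum (Real.sqrt_nonneg t) (by rw [Real.sqrt_lt' one_pos]; linarith) 0
  rwa [Real.sq_sqrt h0] at this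

theorem Dom.tsum_le {c φ : ℝ} {f g : ℂ → ℂ} {a b : ℕ → ℂ} (hd : Dom c φ f g) (ha : Rep f a)
    (hb : Rep g b) {t : ℝ} (h0 : c ^ 2 ≤ t) (h1 : t < 1) :
    ∑' k, ‖a k‖ ^ 2 * t ^ k ≤ φ ^ 2 * ∑' k, ‖b k‖ ^ 2 * t ^ k := by
  have hpi := Real.pi_pos
  have ht0 : 0 ≤ t := (sq_nonneg c).trans h0
  rw [(ha.sq_hasSum ht0 h1).tsum_eq, (hb.sq_hasSum ht0 h1).tsum_eq, ← mul_div_assoc,
    ← intervalIntegral.integral_const_mul]
  have s0 := Real.sqrt_nonneg t
  have s1 : √t < 1 := by rw [Real.sqrt_lt' one_pos]; linarith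
  gcongr
  refine intervalIntegral.integral_mono_on (by linarith)
    (((ha.cont_circ s0 s1).norm.pow 2).intervalIntegrable _ _)
    ((continuous_const.mul ((hb.cont_circ s0 s1).norm.pow 2)).intervalIntegrable _ _)
    fun θ _ => ?_
  rw [← mul_pow]
  refine pow_le_pow_left₀ (norm_nonneg _) (hd _ ?_ ?_) 2
  · rw [norm_circ _ _ s0]
    exact Real.le_sqrt_of_sq_le h0
  · rw [norm_circ _ _ s0]; exact s1

theorem no_zero {c φ : ℝ} {f g : ℂ → ℂ} (hc0 : 0 < c) (hc1 : c < 1) (hε : 1 - c ^ 2 ≤ eps0)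
    (hφ : 0 < φ) (hp : ∀ k : ℕ, φ ^ 2 * ((k + 1) * (c ^ 2) ^ k) ≤ 1) (hf : f ∈ S1) (hg : g ∈ S1)
    (hd : Dom c φ f g) :
    φ ^ 2 ≤ 6 * (1 - c ^ 2) ∧ 3 / 4 ≤ ‖f 0‖ ∧ ∀ z, ‖z‖ = c → g z ≠ 0 := by
  obtain ⟨a, ha, ha1⟩ := exists_unit1 hf
  obtain ⟨b, hb, hb1⟩ := exists_unit1 hg
  have hpi := Real.pi_pos
  set ε := 1 - c ^ 2 with hεdef
  have e1 : 1 - ε = c ^ 2 := by ring
  have ε0 : 0 < ε := by nlinarith
  have ε1 : ε ≤ 1 / 48 := hε.trans eps0_le
  obtain ⟨k1, k2, k3, k4⟩ := dual_estimate (α := fun k => ‖a k‖ ^ 2) (β := fun k => ‖b k‖ ^ 2)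
    (fun k => by positivity) (fun k => by positivity) ha1 hb1 ε0 hε (ψ := φ ^ 2) (by positivity)
    (by rw [e1]; exact hp) (fun t h0 h1 => (ha.sq_hasSum h0 h1).summable)
    (fun t h0 h1 => (hb.sq_hasSum h0 h1).summable)
    (fun t h0 h1 => hd.tsum_le ha hb (by linarith) h1)
  have hL : Lam = 1200000000 := rfl
  rw [hL] at k2 k3
  have f0 : 3 / 4 ≤ ‖a 0‖ := by
    by_contra hlt
    push Not at hlt
    nlinarith [norm_nonneg (a 0)]
  refine ⟨k1, by rw [ha.zero]; exact f0, fun z0 hz0 hg0 => ?_⟩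
  set x := arg z0 with hx
  have hz0e : (c : ℂ) * exp (x * I) = z0 := by rw [← hz0]; exact norm_mul_exp_arg_mul_I z0
  set ν : ℝ := 1 / ε - 1 with hν
  obtain ⟨h, hh⟩ : ∃ h : ℂ → ℂ, ∀ z, h z = z * deriv g z - ν * g z := ⟨_, fun _ => rfl⟩
  have hrep : Rep h (fun k => ((k : ℂ) - ν) * b k) := fun z hz => hh z ▸
    hasSum_congr ((hb.deriv z hz).sub ((hb z hz).mul_left (ν : ℂ))) fun k => by ring
  have p1 := hrep.sq_tsum hc0.le hc1 x
  set Hint := ∫ θ in x..(x + 2 * π), ‖h (c * exp (θ * I))‖ ^ 2 with hHint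
  have p2 := k4 _ (hasSum_congr (p1.mul_left (ε ^ 2)) fun k => by
    have : ‖(k : ℂ) - ν‖ ^ 2 = ((k : ℝ) - ν) ^ 2 := by
      rw [← ofReal_natCast, ← ofReal_sub, norm_real, Real.norm_eq_abs, sq_abs]
    rw [norm_mul, mul_pow, this, e1, hν]
    field_simp
    ring)
  have p3 : φ ^ 2 * Hint ≤ 1000 / ε := by
    rw [← mul_div_assoc, div_le_iff₀ (by positivity)] at p2
    have hH : 0 ≤ Hint := intervalIntegral.integral_nonneg (by linarith) fun θ _ => by positivity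
    rw [le_div_iff₀ ε0]
    have : φ ^ 2 * Hint * ε ≤ 6 * (ε ^ 2 * Hint) := by nlinarith [mul_nonneg hH ε0.le]
    linarith [Real.pi_lt_d2]
  have hcn : ∀ θ : ℝ, ‖(c : ℂ) * exp (θ * I)‖ = c := fun θ => norm_circ c θ hc0.le
  set G : ℝ → ℂ := fun θ => g (c * exp (θ * I)) * exp (-(ν * θ * I)) with hG
  have hn1 : ∀ θ : ℝ, ‖exp (-((ν : ℂ) * θ * I))‖ = 1 := fun θ => by
    have := norm_exp_ofReal_mul_I (-(ν * θ))
    simpa using this
  have hGd : ∀ θ : ℝ, HasDerivAt G (I * h (c * exp (θ * I)) * exp (-(ν * θ * I))) θ := by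
    intro θ
    have d1 : HasDerivAt g (deriv g (c * exp (θ * I))) (c * exp (θ * I)) :=
      (hb.diff.differentiableAt (isOpen_ball.mem_nhds (by
        rw [mem_ball_zero_iff, hcn]; exact hc1))).hasDerivAt
    have d2 : HasDerivAt (fun w : ℂ => (c : ℂ) * exp (w * I)) (c * (exp (θ * I) * I)) θ := by
      simpa using (((hasDerivAt_id (θ : ℂ)).mul_const I).cexp).const_mul (c : ℂ)
    have d3 : HasDerivAt (fun w : ℂ => exp (-(ν * w * I))) (exp (-(ν * θ * I)) * -(ν * I)) θ := by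
      simpa using ((((hasDerivAt_id (θ : ℂ)).const_mul (ν : ℂ)).mul_const I).neg).cexp
    have d4 := ((HasDerivAt.comp (θ : ℂ) (h := fun w : ℂ => (c : ℂ) * exp (w * I)) d1 d2).mul
      d3).comp_ofReal
    refine d4.congr_deriv ?_
    simp only [hh, Function.comp]
    ring
  have hhc : Continuous fun θ : ℝ => h (c * exp (θ * I)) := hrep.cont_circ hc0.le hc1
  set ℓ := ε / 16000 with hℓ
  have ℓ0 : 0 < ℓ := by positivity
  have ℓ1 : ℓ ≤ 2 * π := by linarith [Real.pi_gt_three]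
  have small : ∀ θ, x ≤ θ → θ ≤ x + ℓ → φ * ‖g (c * exp (θ * I))‖ ≤ 1 / 4 := by
    intro θ h1 h2
    have q1 := intervalIntegral.integral_eq_sub_of_hasDerivAt (a := x) (b := θ)
      (fun t _ => hGd t) (((continuous_const.mul hhc).mul (by fun_prop)).intervalIntegrable _ _)
    have q2 : G x = 0 := by simp only [hG, hz0e, hg0, zero_mul]
    have q3 : ‖g (c * exp (θ * I))‖ = ‖G θ‖ := by simp only [hG, norm_mul, hn1, mul_one]
    rw [q2, sub_zero] at q1
    have q4 : ‖G θ‖ ≤ ∫ t in x..θ, ‖h (c * exp (t * I))‖ := by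
      rw [← q1]
      refine (intervalIntegral.norm_integral_le_integral_norm h1).trans_eq ?_
      congr 1
      ext t
      rw [norm_mul, norm_mul, hn1, norm_I, one_mul, mul_one]
    have q5 : φ * ∫ t in x..θ, ‖h (c * exp (t * I))‖
        ≤ ∫ t in x..θ, (ε / 8000 * φ ^ 2 * ‖h (c * exp (t * I))‖ ^ 2 + 2000 / ε) := by
      rw [← intervalIntegral.integral_const_mul]
      refine intervalIntegral.integral_mono_on h1
        ((continuous_const.mul hhc.norm).intervalIntegrable _ _)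
        (((continuous_const.mul (hhc.norm.pow 2)).add continuous_const).intervalIntegrable _ _)
        fun t _ => ?_
      set y := ‖h (c * exp (t * I))‖
      have : ε / 8000 * φ ^ 2 * y ^ 2 + 2000 / ε - φ * y = ε / 8000 * (φ * y - 4000 / ε) ^ 2 := by
        field_simp; ring
      have : 0 ≤ ε / 8000 * (φ * y - 4000 / ε) ^ 2 := by positivity
      linarith
    have hi2 : IntervalIntegrable (fun t : ℝ => ε / 8000 * φ ^ 2 * ‖h (c * exp (t * I))‖ ^ 2)
        volume x θ := (continuous_const.mul (hhc.norm.pow 2)).intervalIntegrable _ _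
    rw [intervalIntegral.integral_add hi2 intervalIntegrable_const, intervalIntegral.integral_const_mul,
      intervalIntegral.integral_const, smul_eq_mul] at q5
    have q6 : ∫ t in x..θ, ‖h (c * exp (t * I))‖ ^ 2 ≤ Hint :=
      intervalIntegral.integral_mono_interval le_rfl h1 (by linarith)
        (Eventually.of_forall fun t => by positivity)
        ((hhc.norm.pow 2).intervalIntegrable _ _)
    have q7 : ε / 8000 * φ ^ 2 * ∫ t in x..θ, ‖h (c * exp (t * I))‖ ^ 2 ≤ 1 / 8 := by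
      calc ε / 8000 * φ ^ 2 * ∫ t in x..θ, ‖h (c * exp (t * I))‖ ^ 2
          ≤ ε / 8000 * φ ^ 2 * Hint := by gcongr
        _ = ε / 8000 * (φ ^ 2 * Hint) := by ring
        _ ≤ ε / 8000 * (1000 / ε) := by gcongr
        _ = 1 / 8 := by field_simp; norm_num
    have q8 : (θ - x) * (2000 / ε) ≤ 1 / 8 := by
      calc (θ - x) * (2000 / ε) ≤ ℓ * (2000 / ε) := by gcongr; linarith
        _ = 1 / 8 := by rw [hℓ]; field_simp; norm_num
    rw [q3]
    have := mul_le_mul_of_nonneg_left q4 hφ.le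
    linarith
  have frep : Rep (fun z => f z - a 0) (fun k => if k = 0 then 0 else a k) := fun z hz => by
    refine hasSum_congr ((ha z hz).sub (hasSum_ite_eq (0 : ℕ) (a 0))) fun k => ?_
    by_cases hk : k = 0
    · subst hk; simp
    · simp [hk]
  have r1 := frep.sq_tsum hc0.le hc1 x
  have r2 := (ha.sq_tsum hc0.le hc1 x).summable.hasSum.sub (hasSum_ite_eq (0 : ℕ) (‖a 0‖ ^ 2))
  have r3 := r1.unique (hasSum_congr r2 fun k => by
    split_ifs with hk
    · subst hk; simp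
    · simp)
  rw [e1, ← r3, div_le_iff₀ (by positivity)] at k2
  have hfc : Continuous fun θ : ℝ => f (c * exp (θ * I)) := ha.cont_circ hc0.le hc1
  have r4 : ∫ θ in x..(x + ℓ), ‖f (c * exp (θ * I)) - a 0‖ ^ 2
      ≤ ∫ θ in x..(x + 2 * π), ‖f (c * exp (θ * I)) - a 0‖ ^ 2 :=
    intervalIntegral.integral_mono_interval le_rfl (by linarith) (by linarith)
      (Eventually.of_forall fun t => by positivity)
      (((hfc.sub continuous_const).norm.pow 2).intervalIntegrable _ _)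
  have r5 : ∫ _ in x..(x + ℓ), (1 / 4 : ℝ)
      ≤ ∫ θ in x..(x + ℓ), ‖f (c * exp (θ * I)) - a 0‖ ^ 2 := by
    refine intervalIntegral.integral_mono_on (by linarith) intervalIntegrable_const
      (((hfc.sub continuous_const).norm.pow 2).intervalIntegrable _ _) fun θ hθ => ?_
    have t1 := (hd _ (hcn θ).ge (by rw [hcn]; exact hc1)).trans (small θ hθ.1 hθ.2)
    have t2 := norm_sub_norm_le (a 0) (f (c * exp (θ * I)))
    rw [norm_sub_rev] at t2
    nlinarith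
  rw [intervalIntegral.integral_const, smul_eq_mul] at r5
  have r6 : 48 / 1200000000 * φ ^ 2 * (2 * π) ≤ 48 / 1200000000 * (6 * ε) * 8 := by
    gcongr
    linarith [Real.pi_lt_four]
  linarith

end Pool.Agent.P.MP_99f05c_an
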