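import Pool.Agent.P.MP_99f05c_an.Defs

/-! Taylor coefficients, Parseval's identity on circles and the Bergman norm. -/

set_option autoImplicit false

open Set Filter Topology MeasureTheory Metric Complex
open scoped ENNReal Real

namespace Pool.Agent.P.MP_99f05c_an

theorem hasSum_congr {E : Type*} [AddCommMonoid E] [TopologicalSpace E] {u v : ℕ → E} {x : E}
    (h : HasSum u x) (e : ∀ k, v k = u k) : HasSum v x := (funext e : v = u) ▸ h

/-- `a` is the sequence of Taylor coefficients of `f` on the unit disc. -/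
def Rep (f : ℂ → ℂ) (a : ℕ → ℂ) : Prop :=
  ∀ z : ℂ, ‖z‖ < 1 → HasSum (fun k => a k * z ^ k) (f z)

theorem exists_rep {f : ℂ → ℂ} (hf : DifferentiableOn ℂ f (ball 0 1)) : ∃ a, Rep f a := by
  refine ⟨fun k => ((k.factorial : ℂ))⁻¹ * iteratedDeriv k f 0, fun z hz => ?_⟩
  have := hasSum_taylorSeries_on_ball hf (z := z) (by simpa using hz)
  simp only [sub_zero, smul_eq_mul] at this
  exact hasSum_congr this fun k => by ring

theorem Rep.summable_norm {f : ℂ → ℂ} {a : ℕ → ℂ} (h : Rep f a) {r : ℝ} (hr0 : 0 ≤ r)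
    (hr : r < 1) : Summable fun k => ‖a k‖ * r ^ k := by
  have := (h r (by rw [norm_real, Real.norm_of_nonneg hr0]; exact hr)).summable
  rw [← summable_norm_iff] at this
  simpa [abs_of_nonneg hr0] using this

theorem Rep.zero {f : ℂ → ℂ} {a : ℕ → ℂ} (h : Rep f a) : f 0 = a 0 := by
  have h1 := h 0 (by simp)
  have h2 : HasSum (fun k => a k * (0 : ℂ) ^ k) (a 0 * 0 ^ 0) :=
    hasSum_single 0 fun k hk => by simp [hk]
  simpa using h1.unique h2

theorem Rep.diff {f : ℂ → ℂ} {a : ℕ → ℂ} (h : Rep f a) : DifferentiableOn ℂ f (ball 0 1) := by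
  intro z hz
  obtain ⟨r, hr1, hr2⟩ := exists_between (show ‖z‖ < 1 by simpa using hz)
  have hr0 : 0 ≤ r := (norm_nonneg z).trans hr1.le
  have h1 : DifferentiableOn ℂ (fun w => ∑' k, a k * w ^ k) (ball 0 r) :=
    differentiableOn_tsum_of_summable_norm (h.summable_norm hr0 hr2)
      (fun k => by fun_prop) isOpen_ball fun k w hw => by
        rw [norm_mul, norm_pow]
        have : ‖w‖ ≤ r := le_of_lt (by simpa using hw)
        gcongr
  have h2 : DifferentiableOn ℂ f (ball 0 r) := h1.congr fun w hw =>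
    (h w (lt_trans (by simpa using hw) hr2)).tsum_eq.symm
  exact (h2.differentiableAt (isOpen_ball.mem_nhds (by simpa using hr1))).differentiableWithinAt

theorem hasSum_int {F : ℕ → ℝ → ℂ} {f : ℝ → ℂ} {M : ℕ → ℝ} (hF : ∀ k, Continuous (F k))
    (hM : ∀ k θ, ‖F k θ‖ ≤ M k) (hs : Summable M) (hf : ∀ θ, HasSum (fun k => F k θ) (f θ))
    (x y : ℝ) : HasSum (fun k => ∫ θ in x..y, F k θ) (∫ θ in x..y, f θ) :=
  intervalIntegral.hasSum_integral_of_dominated_convergence (fun k _ => M k)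
    (fun k => (hF k).aestronglyMeasurable) (fun k => Eventually.of_forall fun θ _ => hM k θ)
    (Eventually.of_forall fun _ _ => hs) intervalIntegrable_const
    (Eventually.of_forall fun θ _ => hf θ)

theorem int_exp (j k : ℕ) (x : ℝ) :
    ∫ θ in x..(x + 2 * π), exp (θ * I) ^ j * exp (-(θ * I)) ^ k
      = if j = k then (2 * π : ℂ) else 0 := by
  split_ifs with h
  · subst h
    have : ∀ θ : ℝ, exp (θ * I) ^ j * exp (-(θ * I)) ^ j = 1 := by
      intro θ
      rw [← mul_pow, ← exp_add]; simp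
    simp [this]
  · have hc : ((j : ℂ) - k) * I ≠ 0 :=
      mul_ne_zero (sub_ne_zero.2 (by exact_mod_cast h)) I_ne_zero
    have : ∀ θ : ℝ, exp (θ * I) ^ j * exp (-(θ * I)) ^ k = exp (((j : ℂ) - k) * I * θ) := by
      intro θ
      rw [← exp_nat_mul, ← exp_nat_mul, ← exp_add]; congr 1; ring
    simp_rw [this]
    rw [integral_exp_mul_complex hc]
    have e : ((j : ℂ) - k) * I * ((x + 2 * π : ℝ) : ℂ)
        = ((j : ℂ) - k) * I * x + ((j - k : ℤ) : ℂ) * (2 * π * I) := by push_cast; ring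
    rw [e, exp_add, exp_int_mul_two_pi_mul_I]
    simp

theorem norm_circ (r θ : ℝ) (hr : 0 ≤ r) : ‖(r : ℂ) * exp (θ * I)‖ = r := by
  rw [norm_mul, norm_exp_ofReal_mul_I, norm_real, Real.norm_of_nonneg hr, mul_one]

theorem Rep.cont_circ {f : ℂ → ℂ} {a : ℕ → ℂ} (h : Rep f a) {r : ℝ} (hr0 : 0 ≤ r) (hr : r < 1) :
    Continuous fun θ : ℝ => f (r * exp (θ * I)) :=
  h.diff.continuousOn.comp_continuous (by fun_prop) fun θ => by
    rw [mem_ball_zero_iff, norm_circ r θ hr0]; exact hr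

/-- Parseval's identity on the circle of radius `r`. -/
theorem Rep.parseval {f : ℂ → ℂ} {a : ℕ → ℂ} (h : Rep f a) {r : ℝ} (hr0 : 0 ≤ r) (hr : r < 1)
    (x : ℝ) : HasSum (fun k => 2 * π * (‖a k‖ ^ 2 * (r ^ 2) ^ k))
      (∫ θ in x..(x + 2 * π), ‖f (r * exp (θ * I))‖ ^ 2) := by
  have hs := h.summable_norm hr0 hr
  have hsum : ∀ θ : ℝ, HasSum (fun k => a k * ((r : ℂ) * exp (θ * I)) ^ k)
      (f (r * exp (θ * I))) := fun θ => h _ (by rw [norm_circ r θ hr0]; exact hr)
  have hn : ∀ θ : ℝ, ‖exp (-(θ * I))‖ = 1 := fun θ => by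
    have := norm_exp_ofReal_mul_I (-θ)
    simpa using this
  have c1 : ∀ k : ℕ, ∫ θ in x..(x + 2 * π), f (r * exp (θ * I)) * exp (-(θ * I)) ^ k
      = 2 * π * (a k * r ^ k) := by
    intro k
    have a1 := hasSum_int (F := fun j θ => a j * ((r : ℂ) * exp (θ * I)) ^ j * exp (-(θ * I)) ^ k)
      (fun j => by fun_prop) (fun j θ => by
        rw [norm_mul, norm_mul, norm_pow, norm_pow, hn, norm_circ r θ hr0]; simp) hs
      (fun θ => (hsum θ).mul_right _) x (x + 2 * π)
    have a2 : ∀ j, ∫ θ in x..(x + 2 * π), a j * ((r : ℂ) * exp (θ * I)) ^ j * exp (-(θ * I)) ^ k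
        = if j = k then 2 * π * (a k * r ^ k) else 0 := by
      intro j
      have : ∀ θ : ℝ, a j * ((r : ℂ) * exp (θ * I)) ^ j * exp (-(θ * I)) ^ k
          = a j * r ^ j * (exp (θ * I) ^ j * exp (-(θ * I)) ^ k) := fun θ => by ring
      simp_rw [this]
      rw [intervalIntegral.integral_const_mul, int_exp]
      split_ifs with hjk
      · subst hjk; ring
      · simp
    simp_rw [a2] at a1
    exact a1.unique (hasSum_ite_eq k _)
  obtain ⟨B, hB⟩ : ∃ B, ∀ θ : ℝ, ‖f (r * exp (θ * I))‖ ≤ B :=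
    ⟨∑' k, ‖a k‖ * r ^ k, fun θ => (hsum θ).norm_le_of_bounded hs.hasSum fun k => by
      rw [norm_mul, norm_pow, norm_circ r θ hr0]⟩
  have hconj : ∀ θ : ℝ, (starRingEnd ℂ) ((r : ℂ) * exp (θ * I)) = r * exp (-(θ * I)) := by
    intro θ
    rw [map_mul, conj_ofReal, ← exp_conj, map_mul, conj_ofReal, conj_I, mul_neg]
  have a3 := hasSum_int (F := fun k θ => (starRingEnd ℂ) (a k) * r ^ k *
      (f (r * exp (θ * I)) * exp (-(θ * I)) ^ k))
    (f := fun θ => ((‖f (r * exp (θ * I))‖ ^ 2 : ℝ) : ℂ)) (M := fun k => ‖a k‖ * r ^ k * B)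
    (fun k => continuous_const.mul ((h.cont_circ hr0 hr).mul (by fun_prop)))
    (fun k θ => by
      rw [norm_mul, norm_mul, norm_mul, norm_pow, norm_pow, hn, RCLike.norm_conj, norm_real,
        Real.norm_of_nonneg hr0, one_pow, mul_one]
      exact mul_le_mul_of_nonneg_left (hB θ) (by positivity))
    (hs.mul_right B) (fun θ => by
      have := (((hsum θ).mapL (conjCLE : ℂ →L[ℝ] ℂ))).mul_right (f (r * exp (θ * I)))
      simp only [ContinuousLinearEquiv.coe_coe, conjCLE_apply, map_mul (starRingEnd ℂ) (a _),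
        map_pow, hconj] at this
      rw [conj_mul'] at this
      push_cast
      exact hasSum_congr this fun k => by ring) x (x + 2 * π)
  simp_rw [intervalIntegral.integral_const_mul, c1] at a3
  rw [intervalIntegral.integral_ofReal] at a3
  rw [← hasSum_ofReal]
  convert a3 using 2 with k
  have := conj_mul' (a k)
  push_cast
  rw [← this, ← pow_mul, two_mul k, pow_add]
  ring

theorem measurable_indicator_sq {U : Set ℂ} (hU : MeasurableSet U) {h : ℂ → ℂ}
    (hh : ContinuousOn h U) : Measurable (U.indicator fun x => ENNReal.ofReal (‖h x‖ ^ 2)) := by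
  classical
  have h1 : Measurable (U.piecewise h fun _ => 0) :=
    ContinuousOn.measurable_piecewise hh continuousOn_const hU
  have h2 : (U.indicator fun x => ENNReal.ofReal (‖h x‖ ^ 2)) =
      fun x => ENNReal.ofReal (‖(U.piecewise h fun _ => 0) x‖ ^ 2) := by
    ext x
    by_cases hx : x ∈ U <;> simp [hx]
  rw [h2]
  exact (h1.norm.pow_const 2).ennreal_ofReal

theorem Rep.lintegral_eq {f : ℂ → ℂ} {a : ℕ → ℂ} (h : Rep f a) :
    ∫⁻ z in ball (0 : ℂ) 1, ENNReal.ofReal (‖f z‖ ^ 2)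
      = ∑' k, ENNReal.ofReal (π * (‖a k‖ ^ 2 / (k + 1))) := by
  have hm := measurable_indicator_sq measurableSet_ball h.diff.continuousOn
  have hc : ∀ r θ : ℝ, (r : ℂ) * (Real.cos θ + Real.sin θ * I) = r * exp (θ * I) := by
    intro r θ
    rw [exp_mul_I, ofReal_cos, ofReal_sin]
  have key : ∫⁻ z in ball (0 : ℂ) 1, ENNReal.ofReal (‖f z‖ ^ 2)
      = ∫⁻ r in Ioi (0 : ℝ), ∫⁻ θ in Ioo (-π) π, ENNReal.ofReal r *
        (ball (0 : ℂ) 1).indicator (fun z => ENNReal.ofReal (‖f z‖ ^ 2)) (r * exp (θ * I)) := by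
    rw [← lintegral_indicator measurableSet_ball,
      ← Complex.lintegral_comp_polarCoord_symm, polarCoord_target, Measure.volume_eq_prod,
      setLIntegral_prod]
    · simp only [Complex.polarCoord_symm_apply, smul_eq_mul, hc]
    · apply Measurable.aemeasurable
      simp only [Complex.polarCoord_symm_apply, smul_eq_mul]
      refine (ENNReal.measurable_ofReal.comp measurable_fst).mul (hm.comp ?_)
      fun_prop
  have inner : ∀ r ∈ Ioi (0 : ℝ), ∫⁻ θ in Ioo (-π) π, ENNReal.ofReal r *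
        (ball (0 : ℂ) 1).indicator (fun z => ENNReal.ofReal (‖f z‖ ^ 2)) (r * exp (θ * I))
      = (Iio (1 : ℝ)).indicator
        (fun r => ∑' k, ENNReal.ofReal (2 * π * ‖a k‖ ^ 2 * r ^ (2 * k + 1))) r := by
    intro r hr
    have hr : 0 < r := hr
    have hn : ∀ θ : ℝ, ((r : ℂ) * exp (θ * I) ∈ ball (0 : ℂ) 1) ↔ r < 1 := by
      intro θ
      rw [mem_ball_zero_iff, norm_circ r θ hr.le]
    by_cases hr1 : r < 1
    · simp_rw [indicator_of_mem ((hn _).mpr hr1)]
      rw [indicator_of_mem (show r ∈ Iio 1 from hr1),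
        lintegral_const_mul' _ _ ENNReal.ofReal_ne_top]
      have p := h.parseval hr.le hr1 (-π)
      rw [show -π + 2 * π = π by ring, intervalIntegral.integral_of_le
        (by linarith [Real.pi_pos]), integral_Ioc_eq_integral_Ioo] at p
      have hi : IntegrableOn (fun θ : ℝ => ‖f (r * exp (θ * I))‖ ^ 2) (Ioo (-π) π) :=
        (((h.cont_circ hr.le hr1).norm.pow 2).integrableOn_Icc).mono_set Ioo_subset_Icc_self
      rw [← ofReal_integral_eq_lintegral_ofReal hi
        (Eventually.of_forall fun θ => by positivity), ← p.tsum_eq,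
        ENNReal.ofReal_tsum_of_nonneg (fun k => by positivity) p.summable,
        ← ENNReal.tsum_mul_left]
      congr 1
      ext k
      rw [← ENNReal.ofReal_mul hr.le]
      congr 1
      ring
    · simp_rw [indicator_of_notMem (mt (hn _).mp hr1)]
      rw [indicator_of_notMem (show r ∉ Iio 1 from hr1)]
      simp
  rw [key, setLIntegral_congr_fun measurableSet_Ioi inner,
    lintegral_indicator measurableSet_Iio, Measure.restrict_restrict measurableSet_Iio,
    Iio_inter_Ioi, lintegral_tsum (fun k => by fun_prop)]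
  congr 1
  ext k
  have hi : IntegrableOn (fun r : ℝ => 2 * π * ‖a k‖ ^ 2 * r ^ (2 * k + 1)) (Ioo 0 1) :=
    (Continuous.integrableOn_Icc (by fun_prop)).mono_set Ioo_subset_Icc_self
  rw [← ofReal_integral_eq_lintegral_ofReal hi
    ((ae_restrict_iff' measurableSet_Ioo).2 (Eventually.of_forall fun r hr => by
      have := hr.1
      positivity)), ← integral_Ioc_eq_integral_Ioo,
    ← intervalIntegral.integral_of_le zero_le_one, intervalIntegral.integral_const_mul,
    integral_pow]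
  congr 1
  push_cast
  field_simp
  ring

theorem Rep.isA2_iff {f : ℂ → ℂ} {a : ℕ → ℂ} (h : Rep f a) :
    IsA2 f ↔ Summable fun k => ‖a k‖ ^ 2 / (k + 1) := by
  have hmeas : AEStronglyMeasurable (fun z => ‖f z‖ ^ 2) (volume.restrict (ball (0 : ℂ) 1)) :=
    ((h.diff.continuousOn.norm.pow 2)).aestronglyMeasurable measurableSet_ball
  have e : IntegrableOn (fun z => ‖f z‖ ^ 2) (ball (0 : ℂ) 1) ↔
      ∫⁻ z in ball (0 : ℂ) 1, ENNReal.ofReal (‖f z‖ ^ 2) ≠ ∞ :=
    (lintegral_ofReal_ne_top_iff_integrable hmeas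
      (Eventually.of_forall fun z => by positivity)).symm
  rw [IsA2, e, h.lintegral_eq, and_iff_right h.diff]
  constructor
  · intro h1
    have := ENNReal.summable_toReal h1
    have e2 : ∀ k : ℕ, (ENNReal.ofReal (π * (‖a k‖ ^ 2 / (k + 1)))).toReal
        = π * (‖a k‖ ^ 2 / (k + 1)) := fun k => ENNReal.toReal_ofReal (by positivity)
    simp_rw [e2] at this
    exact (summable_mul_left_iff Real.pi_ne_zero).1 this
  · intro h1
    rw [← ENNReal.ofReal_tsum_of_nonneg (fun k => by positivity) (h1.mul_left π)]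
    exact ENNReal.ofReal_ne_top

theorem Rep.bnorm_eq {f : ℂ → ℂ} {a : ℕ → ℂ} (h : Rep f a) {x : ℝ}
    (hx : HasSum (fun k => ‖a k‖ ^ 2 / (k + 1)) x) : bnorm f = Real.sqrt x := by
  have hi := (h.isA2_iff.2 hx.summable).2
  have e := ofReal_integral_eq_lintegral_ofReal hi (Eventually.of_forall fun z => by positivity)
  rw [h.lintegral_eq, ← ENNReal.ofReal_tsum_of_nonneg (fun k => by positivity)
    (hx.summable.mul_left π), (hx.mul_left π).tsum_eq, ENNReal.ofReal_eq_ofReal_iff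
    (integral_nonneg fun z => by positivity)
    (mul_nonneg Real.pi_pos.le (hx.nonneg fun k => by positivity))] at e
  rw [bnorm, e, ← mul_assoc, inv_mul_cancel₀ Real.pi_ne_zero, one_mul]

/-- Normalised coefficient sequences. -/
def Unit1 (a : ℕ → ℂ) : Prop := HasSum (fun k => ‖a k‖ ^ 2 / (k + 1)) 1

theorem Rep.mem_S1_iff {f : ℂ → ℂ} {a : ℕ → ℂ} (h : Rep f a) : f ∈ S1 ↔ Unit1 a := by
  constructor
  · rintro ⟨h1, h2⟩
    have hs := (h.isA2_iff.1 h1).hasSum
    rw [h.bnorm_eq hs, Real.sqrt_eq_one] at h2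
    rwa [h2] at hs
  · intro h1
    exact ⟨h.isA2_iff.2 h1.summable, by rw [h.bnorm_eq h1, Real.sqrt_one]⟩

theorem exists_unit1 {f : ℂ → ℂ} (hf : f ∈ S1) : ∃ a, Rep f a ∧ Unit1 a := by
  obtain ⟨a, ha⟩ := exists_rep hf.1.1
  exact ⟨a, ha, ha.mem_S1_iff.1 hf⟩

end Pool.Agent.P.MP_99f05c_an
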