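import Pool.Agent.P.MP_99f05c_an.NoZero

/-! Counting zeros inside a circle. -/

set_option autoImplicit false

open Set Filter Topology MeasureTheory Metric Complex
open scoped Real

namespace Pool.Agent.P.MP_99f05c_an

/-- The monic polynomial with the given roots. -/
def rp (u : List ℂ) (z : ℂ) : ℂ := (u.map fun x => z - x).prod

@[simp] theorem rp_nil (z : ℂ) : rp [] z = 1 := rfl
@[simp] theorem rp_cons (x : ℂ) (u : List ℂ) (z : ℂ) : rp (x :: u) z = (z - x) * rp u z := by
  simp [rp]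

theorem rp_append (u v : List ℂ) (z : ℂ) : rp (u ++ v) z = rp u z * rp v z := by simp [rp]

theorem rp_replicate (n : ℕ) (x z : ℂ) : rp (List.replicate n x) z = (z - x) ^ n := by simp [rp]

theorem rp_diff (u : List ℂ) : Differentiable ℂ (rp u) := by
  induction u with
  | nil => exact differentiable_const 1
  | cons x u ih =>
    have : rp (x :: u) = fun z => (z - x) * rp u z := funext (rp_cons x u)
    rw [this]; fun_prop

theorem rp_eq_zero {u : List ℂ} {x : ℂ} (hx : x ∈ u) : rp u x = 0 := by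
  induction u with
  | nil => simp at hx
  | cons y u ih =>
    rcases List.mem_cons.1 hx with rfl | h
    · simp
    · simp [ih h]

theorem rp_ne_zero {u : List ℂ} {z : ℂ} (h : ∀ x ∈ u, z ≠ x) : rp u z ≠ 0 := by
  induction u with
  | nil => simp
  | cons y u ih =>
    rw [rp_cons]
    exact mul_ne_zero (sub_ne_zero.2 (h y (by simp))) (ih fun x hx => h x (by simp [hx]))

theorem rp_norm_le {u : List ℂ} {z : ℂ} (h : ∀ x ∈ u, ‖x‖ ≤ 1) (hz : ‖z‖ ≤ 1) :
    ‖rp u z‖ ≤ 2 ^ u.length := by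
  induction u with
  | nil => simp
  | cons y u ih =>
    rw [rp_cons, norm_mul, List.length_cons, pow_succ']
    have h1 : ‖z - y‖ ≤ 2 := (norm_sub_le z y).trans (by linarith [h y (by simp)])
    exact mul_le_mul h1 (ih fun x hx => h x (by simp [hx])) (norm_nonneg _) (by norm_num)

/-- `g` has exactly `N` zeros in `|z| ≤ r₂`, all of them in `|z| < r₁`. -/
def Zc (g : ℂ → ℂ) (r₁ r₂ : ℝ) (N : ℕ) : Prop :=
  ∃ (u : List ℂ) (G : ℂ → ℂ), u.length = N ∧ (∀ x ∈ u, ‖x‖ < r₁) ∧
    DifferentiableOn ℂ G (ball 0 1) ∧ (∀ z, ‖z‖ ≤ r₂ → G z ≠ 0) ∧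
    ∀ z, ‖z‖ < 1 → g z = rp u z * G z

theorem eventually_ne {g : ℂ → ℂ} (hg : DifferentiableOn ℂ g (ball 0 1)) {z0 : ℂ} (h0 : ‖z0‖ < 1)
    (hz0 : g z0 ≠ 0) {x : ℂ} (hx : ‖x‖ < 1) : ∀ᶠ z in 𝓝[≠] x, g z ≠ 0 := by
  have ha := hg.analyticOnNhd isOpen_ball
  rcases (ha x (by simpa using hx)).eventually_eq_zero_or_eventually_ne_zero with h | h
  · exact absurd (ha.eqOn_zero_of_preconnected_of_eventuallyEq_zero
      (convex_ball (0 : ℂ) 1).isPreconnected (by simpa using hx) h (by simpa using h0)) hz0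
  · exact h

theorem factor_one {g : ℂ → ℂ} (hg : DifferentiableOn ℂ g (ball 0 1)) {x : ℂ} (hx : ‖x‖ < 1)
    (hne : ∀ᶠ z in 𝓝[≠] x, g z ≠ 0) : ∃ (n : ℕ) (G : ℂ → ℂ),
      DifferentiableOn ℂ G (ball 0 1) ∧ G x ≠ 0 ∧ ∀ z, g z = (z - x) ^ n * G z := by
  have hx' : ball (0 : ℂ) 1 ∈ 𝓝 x := isOpen_ball.mem_nhds (by simpa using hx)
  obtain ⟨p, hp⟩ := hg.analyticAt hx'
  have hp0 : p ≠ 0 := by
    intro h0
    have := hp.locally_zero_iff.2 h0
    exact (hne.and (this.filter_mono nhdsWithin_le_nhds)).exists.elim fun z hz => hz.1 hz.2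
  refine ⟨p.order, (Function.swap dslope x)^[p.order] g, ?_, hp.iterate_dslope_fslope_ne_zero hp0,
    fun z => hp.eq_pow_order_mul_iterate_dslope z⟩
  induction p.order with
  | zero => exact hg
  | succ n ih =>
    rw [Function.iterate_succ_apply']
    exact (differentiableOn_dslope hx').2 ih

theorem exists_Zc {g : ℂ → ℂ} (hg : DifferentiableOn ℂ g (ball 0 1)) {r : ℝ} (hr0 : 0 ≤ r)
    (hr : r < 1) (hne : ∀ z, ‖z‖ = r → g z ≠ 0) : ∃ N, Zc g r r N := by
  have hr' : ‖(r : ℂ)‖ = r := by rw [norm_real, Real.norm_of_nonneg hr0]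
  have key : ∀ (T : Finset ℂ) (g : ℂ → ℂ), DifferentiableOn ℂ g (ball 0 1) →
      (∀ z, ‖z‖ = r → g z ≠ 0) → (∀ z, ‖z‖ ≤ r → g z = 0 → z ∈ T) → ∃ N, Zc g r r N := by
    classical
    intro T
    induction T using Finset.induction_on with
    | empty =>
      intro g hg _ hT
      exact ⟨0, [], g, rfl, by simp, hg, fun z hz h0 => by simpa using hT z hz h0, by simp⟩
    | insert x T _ ih =>
      intro g hg hne hT
      by_cases hx : ‖x‖ ≤ r ∧ g x = 0
      · have hx1 : ‖x‖ < r := lt_of_le_of_ne hx.1 fun h => hne x h hx.2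
        obtain ⟨n, G, hG, hGx, he⟩ := factor_one hg (hx1.trans hr)
          (eventually_ne hg (by rw [hr']; exact hr) (hne _ hr') (hx1.trans hr))
        obtain ⟨N, u, G', hu1, hu2, hG', hG'', he'⟩ := ih G hG
          (fun z hz h0 => hne z hz (by rw [he, h0, mul_zero])) (fun z hz h0 => by
            rcases Finset.mem_insert.1 (hT z hz (by rw [he, h0, mul_zero])) with h | h
            · exact absurd (h ▸ h0) hGx
            · exact h)
        refine ⟨_, List.replicate n x ++ u, G', rfl, fun y hy => ?_, hG', hG'', fun z hz => ?_⟩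
        · rcases List.mem_append.1 hy with h | h
          · rw [List.eq_of_mem_replicate h]; exact hx1
          · exact hu2 y h
        · rw [he, he' z hz, rp_append, rp_replicate, mul_assoc]
      · refine ih g hg hne fun z hz h0 => ?_
        rcases Finset.mem_insert.1 (hT z hz h0) with h | h
        · exact absurd ⟨h ▸ hz, h ▸ h0⟩ hx
        · exact h
  have hfin : ({z | g z = 0} ∩ closedBall (0 : ℂ) r).Finite := by
    by_contra h
    obtain ⟨x, hx1, hx⟩ := Set.Infinite.exists_accPt_of_subset_isCompact h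
      (isCompact_closedBall 0 r) inter_subset_right
    rw [accPt_iff_frequently_nhdsNE] at hx
    exact hx ((eventually_ne hg (by rw [hr']; exact hr) (hne _ hr')
      (lt_of_le_of_lt (by simpa using hx1) hr)).mono fun z hz h => hz h.1)
  exact key hfin.toFinset g hg hne fun z hz h0 => hfin.mem_toFinset.2 ⟨h0, by simpa using hz⟩

theorem Zc.move {g : ℂ → ℂ} {r r₁ r₂ : ℝ} {N : ℕ} (h : Zc g r r N) (h1 : r₁ ≤ r) (h2 : r ≤ r₂)
    (h3 : r₂ < 1) (hne : ∀ z, r₁ ≤ ‖z‖ → ‖z‖ ≤ r₂ → g z ≠ 0) : Zc g r₁ r₂ N := by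
  obtain ⟨u, G, hu1, hu2, hG, hG', he⟩ := h
  refine ⟨u, G, hu1, fun x hx => ?_, hG, fun z hz h0 => ?_, he⟩
  · by_contra hlt
    push Not at hlt
    have := hu2 x hx
    exact hne x hlt (by linarith) (by rw [he x (by linarith), rp_eq_zero hx, zero_mul])
  · rcases le_total ‖z‖ r with h4 | h4
    · exact hG' z h4 h0
    · exact hne z (by linarith) hz (by rw [he z (by linarith), h0, mul_zero])

theorem avg_rp {u : List ℂ} {G : ℂ → ℂ} {r : ℝ} (hr : 0 < r) (hu : ∀ x ∈ u, ‖x‖ < r)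
    (hG : ContinuousOn G (sphere 0 r)) (hne : ∀ z, ‖z‖ = r → G z ≠ 0) :
    Real.circleAverage (fun z => Real.log ‖rp u z * G z‖) 0 r
      = u.length * Real.log r + Real.circleAverage (fun z => Real.log ‖G z‖) 0 r := by
  induction u with
  | nil => simp
  | cons x u ih =>
    have hx := hu x (by simp)
    have hu' : ∀ y ∈ u, ‖y‖ < r := fun y hy => hu y (by simp [hy])
    have n1 : ∀ z ∈ sphere (0 : ℂ) r, z - x ≠ 0 := fun z hz h0 => by
      rw [sub_eq_zero.1 h0] at hz
      exact hx.ne (by simpa using hz)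
    have n2 : ∀ z ∈ sphere (0 : ℂ) r, rp u z * G z ≠ 0 := fun z hz =>
      mul_ne_zero (rp_ne_zero fun y hy h0 => by
        rw [h0] at hz
        exact (hu' y hy).ne (by simpa using hz)) (hne z (by simpa using hz))
    have e : EqOn (fun z => Real.log ‖rp (x :: u) z * G z‖)
        (fun z => Real.log ‖z - x‖ + Real.log ‖rp u z * G z‖) (sphere 0 |r|) := by
      intro z hz
      rw [abs_of_pos hr] at hz
      simp only [rp_cons]
      rw [mul_assoc, norm_mul, Real.log_mul (norm_ne_zero_iff.2 (n1 z hz))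
        (norm_ne_zero_iff.2 (n2 z hz))]
    have i2 : CircleIntegrable (fun z => Real.log ‖rp u z * G z‖) 0 r :=
      ContinuousOn.circleIntegrable hr.le (ContinuousOn.log
        (((rp_diff u).continuous.continuousOn.mul hG).norm)
        fun z hz => norm_ne_zero_iff.2 (n2 z hz))
    rw [Real.circleAverage_congr_sphere e, Real.circleAverage_fun_add
      (ContinuousOn.circleIntegrable hr.le (ContinuousOn.log (by fun_prop)
        fun z hz => norm_ne_zero_iff.2 (n1 z hz))) i2, ih hu',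
      circleAverage_log_norm_sub_const_eq_log_radius_add_posLog hr.ne',
      (Real.posLog_eq_zero_iff _).2 (by
        rw [abs_of_nonneg (by positivity), zero_sub, norm_neg, ← div_eq_inv_mul, div_le_one hr]
        exact hx.le)]
    simp only [List.length_cons]
    push_cast
    ring

theorem Zc.avg {g : ℂ → ℂ} {r₁ r₂ : ℝ} {N : ℕ} (h : Zc g r₁ r₂ N) (h0 : 0 < r₁) (h1 : r₁ ≤ r₂)
    (h2 : r₂ < 1) : Real.circleAverage (fun z => Real.log ‖g z‖) 0 r₂
      - Real.circleAverage (fun z => Real.log ‖g z‖) 0 r₁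
      = N * (Real.log r₂ - Real.log r₁) := by
  obtain ⟨u, G, hu1, hu2, hG, hG', he⟩ := h
  have key : ∀ r, r₁ ≤ r → r ≤ r₂ → Real.circleAverage (fun z => Real.log ‖g z‖) 0 r
      = N * Real.log r + Real.log ‖G 0‖ := by
    intro r a1 a2
    have hr : 0 < r := by linarith
    have hsub : closedBall (0 : ℂ) r ⊆ ball 0 1 := closedBall_subset_ball (by linarith)
    have e : EqOn (fun z => Real.log ‖g z‖) (fun z => Real.log ‖rp u z * G z‖) (sphere 0 |r|) := by
      intro z hz
      rw [abs_of_pos hr] at hz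
      have : ‖z‖ = r := by simpa using hz
      simp only [he z (by linarith)]
    rw [Real.circleAverage_congr_sphere e, avg_rp hr (fun x hx => by linarith [hu2 x hx])
      (hG.continuousOn.mono (sphere_subset_closedBall.trans hsub))
      (fun z hz => hG' z (by linarith)), hu1,
      AnalyticOnNhd.circleAverage_log_norm_of_ne_zero
        ((hG.analyticOnNhd isOpen_ball).mono (by rw [abs_of_pos hr]; exact hsub))
        (fun z hz => hG' z (by
          rw [abs_of_pos hr] at hz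
          have : ‖z‖ ≤ r := by simpa using hz
          linarith))]
  rw [key r₂ h1 le_rfl, key r₁ le_rfl h1]
  ring

theorem avg_le {g g' : ℂ → ℂ} {r m η : ℝ} (hr0 : 0 < r) (hr : r < 1) (hm : 0 < m)
    (hg : DifferentiableOn ℂ g (ball 0 1)) (hg' : DifferentiableOn ℂ g' (ball 0 1))
    (h1 : ∀ z, ‖z‖ = r → m ≤ ‖g z‖) (h2 : ∀ z, ‖z‖ = r → m ≤ ‖g' z‖)
    (h3 : ∀ z, ‖z‖ = r → ‖g' z - g z‖ ≤ η * m) :
    Real.circleAverage (fun z => Real.log ‖g' z‖) 0 r
      ≤ Real.circleAverage (fun z => Real.log ‖g z‖) 0 r + η := by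
  have hsub : sphere (0 : ℂ) r ⊆ ball 0 1 := sphere_subset_closedBall.trans
    (closedBall_subset_ball hr)
  have i1 : CircleIntegrable (fun z => Real.log ‖g z‖) 0 r :=
    ContinuousOn.circleIntegrable hr0.le (ContinuousOn.log (hg.continuousOn.mono hsub).norm
      fun z hz => (hm.trans_le (h1 z (by simpa using hz))).ne')
  have i2 : CircleIntegrable (fun z => Real.log ‖g' z‖) 0 r :=
    ContinuousOn.circleIntegrable hr0.le (ContinuousOn.log (hg'.continuousOn.mono hsub).norm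
      fun z hz => (hm.trans_le (h2 z (by simpa using hz))).ne')
  have i3 : CircleIntegrable (fun _ => η) 0 r := circleIntegrable_const η 0 r
  rw [← Real.circleAverage_const η 0 r, ← Real.circleAverage_fun_add i1 i3]
  refine Real.circleAverage_mono i2 (i1.add i3) fun z hz => ?_
  rw [abs_of_pos hr0] at hz
  have hz' : ‖z‖ = r := by simpa using hz
  have a1 := h1 z hz'
  have a2 := h2 z hz'
  have a3 := h3 z hz'
  have p1 : 0 < ‖g z‖ := by linarith
  have p2 : 0 < ‖g' z‖ := by linarith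
  have hη : 0 ≤ η := by
    by_contra h
    push Not at h
    nlinarith [norm_nonneg (g' z - g z)]
  have a4 := Real.log_le_sub_one_of_pos (div_pos p2 p1)
  rw [Real.log_div p2.ne' p1.ne'] at a4
  have a5 : ‖g' z‖ / ‖g z‖ ≤ 1 + η := by
    rw [div_le_iff₀ p1]
    nlinarith [norm_sub_norm_le (g' z) (g z)]
  linarith

theorem exists_annulus {g : ℂ → ℂ} (hg : DifferentiableOn ℂ g (ball 0 1)) {c : ℝ} (hc0 : 0 < c)
    (hc1 : c < 1) (hne : ∀ z, ‖z‖ = c → g z ≠ 0) : ∃ r₁ r₂ m : ℝ, 0 < r₁ ∧ r₁ < c ∧ c < r₂ ∧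
      r₂ < 1 ∧ 0 < m ∧ ∀ z, r₁ ≤ ‖z‖ → ‖z‖ ≤ r₂ → m ≤ ‖g z‖ := by
  have hU : IsOpen (ball (0 : ℂ) 1 ∩ g ⁻¹' {0}ᶜ) :=
    hg.continuousOn.isOpen_inter_preimage isOpen_ball isOpen_compl_singleton
  obtain ⟨δ, hδ, hsub⟩ := (isCompact_sphere (0 : ℂ) c).exists_cthickening_subset_open hU
    fun z hz => by
      have : ‖z‖ = c := by simpa using hz
      exact ⟨by rw [mem_ball_zero_iff, this]; exact hc1, hne z this⟩
  set δ' := min δ (min (c / 2) ((1 - c) / 2)) with hδ'
  have d1 : δ' ≤ δ := min_le_left _ _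
  have d2 : δ' ≤ c / 2 := (min_le_right _ _).trans (min_le_left _ _)
  have d3 : δ' ≤ (1 - c) / 2 := (min_le_right _ _).trans (min_le_right _ _)
  have d0 : 0 < δ' := lt_min hδ (lt_min (by linarith) (by linarith))
  set K : Set ℂ := closedBall 0 (c + δ') ∩ {z | c - δ' ≤ ‖z‖} with hK
  have hKc : IsCompact K := (isCompact_closedBall _ _).inter_right
    (isClosed_le continuous_const continuous_norm)
  have hKU : K ⊆ ball (0 : ℂ) 1 ∩ g ⁻¹' {0}ᶜ := by
    intro z hz
    have z1 : ‖z‖ ≤ c + δ' := by simpa using hz.1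
    have z2 : c - δ' ≤ ‖z‖ := hz.2
    have z0 : 0 < ‖z‖ := by linarith
    refine hsub (mem_cthickening_of_dist_le z (((c / ‖z‖ : ℝ) : ℂ) * z) δ _ ?_ ?_)
    · rw [mem_sphere_zero_iff_norm, norm_mul, norm_real, Real.norm_of_nonneg (by positivity),
        div_mul_cancel₀ _ z0.ne']
    · have : z - ((c / ‖z‖ : ℝ) : ℂ) * z = (((‖z‖ - c) / ‖z‖ : ℝ) : ℂ) * z := by
        have : ((‖z‖ : ℝ) : ℂ) ≠ 0 := by exact_mod_cast z0.ne'
        push_cast; field_simp
      rw [dist_eq_norm, this, norm_mul, norm_real, Real.norm_eq_abs, abs_div, abs_of_pos z0,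
        div_mul_cancel₀ _ z0.ne', abs_le]
      constructor <;> linarith
  obtain ⟨z0, hz0, hmin⟩ := hKc.exists_isMinOn ⟨(c : ℂ), by
      have : ‖(c : ℂ)‖ = c := by rw [norm_real, Real.norm_of_nonneg hc0.le]
      exact ⟨by rw [mem_closedBall_zero_iff, this]; linarith, by
        simp only [mem_ofPred_eq, this]; linarith⟩⟩
    (hg.continuousOn.mono fun z hz => (hKU hz).1).norm
  exact ⟨c - δ', c + δ', ‖g z0‖, by linarith, by linarith, by linarith, by linarith,
    norm_pos_iff.2 (hKU hz0).2, fun z h1 h2 => hmin ⟨by simpa using h2, h1⟩⟩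

/-- Stability of the number of zeros. -/
theorem Zc_stable {g : ℂ → ℂ} (hg : DifferentiableOn ℂ g (ball 0 1)) {c : ℝ} (hc0 : 0 < c)
    (hc1 : c < 1) (hne : ∀ z, ‖z‖ = c → g z ≠ 0) {N : ℕ} (hN : Zc g c c N) :
    ∃ r₁ r₂ η : ℝ, r₁ < c ∧ c < r₂ ∧ r₂ < 1 ∧ 0 < η ∧ ∀ (g' : ℂ → ℂ) (c' : ℝ) (N' : ℕ),
      DifferentiableOn ℂ g' (ball 0 1) → r₁ ≤ c' → c' ≤ r₂ → Zc g' c' c' N' →
      (∀ z, ‖z‖ ≤ r₂ → ‖g' z - g z‖ ≤ η) → N' = N := by
  obtain ⟨r₁, r₂, m, h0, h1, h2, h3, hm, hlow⟩ := exists_annulus hg hc0 hc1 hne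
  set Δ := Real.log r₂ - Real.log r₁ with hΔ
  have Δ0 : 0 < Δ := sub_pos.2 (Real.log_lt_log h0 (by linarith))
  set κ := min (Δ / 4) 1 with hκ
  have κ0 : 0 < κ := lt_min (by linarith) one_pos
  have κ1 : κ ≤ Δ / 4 := min_le_left _ _
  have κ2 : κ ≤ 1 := min_le_right _ _
  refine ⟨r₁, r₂, κ * (m / 2), h1, h2, h3, by positivity, ?_⟩
  intro g' c' N' hg' a1 a2 hN' hclose
  have hlow' : ∀ z, r₁ ≤ ‖z‖ → ‖z‖ ≤ r₂ → m / 2 ≤ ‖g' z‖ := fun z b1 b2 => by
    have := norm_sub_norm_le (g z) (g' z)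
    rw [norm_sub_rev] at this
    nlinarith [hlow z b1 b2, hclose z b2]
  have z1 := (hN.move h1.le h2.le h3 fun z b1 b2 =>
    norm_pos_iff.1 (hm.trans_le (hlow z b1 b2))).avg h0 (by linarith) h3
  have z2 := (hN'.move a1 a2 h3 fun z b1 b2 =>
    norm_pos_iff.1 (by linarith [hlow' z b1 b2])).avg h0 (by linarith) h3
  have two : ∀ r, r₁ ≤ r → r ≤ r₂ → |Real.circleAverage (fun z => Real.log ‖g' z‖) 0 r
      - Real.circleAverage (fun z => Real.log ‖g z‖) 0 r| ≤ κ := by
    intro r b1 b2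
    have c1 := avg_le (m := m / 2) (η := κ) (by linarith : 0 < r) (by linarith) (by linarith)
      hg hg' (fun z hz => by linarith [hlow z (by linarith) (by linarith)])
      (fun z hz => hlow' z (by linarith) (by linarith)) (fun z hz => hclose z (by linarith))
    have c2 := avg_le (m := m / 2) (η := κ) (by linarith : 0 < r) (by linarith) (by linarith)
      hg' hg (fun z hz => hlow' z (by linarith) (by linarith))
      (fun z hz => by linarith [hlow z (by linarith) (by linarith)])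
      (fun z hz => by rw [norm_sub_rev]; exact hclose z (by linarith))
    rw [abs_le]; constructor <;> linarith
  have t1 := abs_le.1 (two r₁ le_rfl (by linarith))
  have t2 := abs_le.1 (two r₂ (by linarith) le_rfl)
  rw [← hΔ] at z1 z2
  have u1 : (N' : ℝ) < N + 1 := by
    by_contra h
    push Not at h
    nlinarith [t1.1, t1.2, t2.1, t2.2]
  have u2 : (N : ℝ) < N' + 1 := by
    by_contra h
    push Not at h
    nlinarith [t1.1, t1.2, t2.1, t2.2]
  have v1 : N' < N + 1 := by exact_mod_cast u1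
  have v2 : N < N' + 1 := by exact_mod_cast u2
  omega

theorem half_bound {B : ℝ} (u : List ℂ) : ∀ G : ℂ → ℂ, DifferentiableOn ℂ G (ball 0 1) →
    (∀ z, ‖z‖ = 1 / 2 → ‖rp u z * G z‖ ≤ B) → ‖G 0‖ ≤ 2 ^ u.length * B := by
  induction u with
  | nil =>
    intro G hG h
    have hd : DiffContOnCl ℂ G (ball 0 (1 / 2)) := by
      apply DifferentiableOn.diffContOnCl
      rw [closure_ball _ (by norm_num)]
      exact hG.mono (closedBall_subset_ball (by norm_num))
    have := norm_le_of_forall_mem_frontier_norm_le isBounded_ball hd (C := B) (fun z hz => by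
      rw [frontier_ball _ (by norm_num)] at hz
      simpa using h z (by simpa using hz)) (z := 0) (subset_closure (by simp))
    simpa using this
  | cons x u ih =>
    intro G hG h
    have := ih (fun z => (1 / 2 - 2 * (starRingEnd ℂ) x * z) * G z)
      (DifferentiableOn.mul (by fun_prop) hG) fun z hz => by
        refine le_of_eq_of_le ?_ (h z hz)
        have e : ‖1 / 2 - 2 * (starRingEnd ℂ) x * z‖ = ‖z - x‖ := by
          have e1 : (starRingEnd ℂ) z * z = 1 / 4 := by
            rw [conj_mul', hz]; norm_num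
          have e2 : 1 / 2 - 2 * (starRingEnd ℂ) x * z = 2 * z * (starRingEnd ℂ) (z - x) := by
            rw [map_sub]; linear_combination (-2) * e1
          rw [e2, norm_mul, norm_mul, RCLike.norm_conj, hz]; norm_num
        simp only [rp_cons, norm_mul, e]; ring
    simp only [mul_zero, sub_zero, norm_mul] at this
    norm_num at this
    rw [List.length_cons, pow_succ]
    linarith

theorem Zc.growth {f g : ℂ → ℂ} {c φ B : ℝ} {N : ℕ} (h : Zc g c c N) (hc0 : 0 < c) (hc1 : c < 1)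
    (hφ : 0 ≤ φ) (hf : DifferentiableOn ℂ f (ball 0 1))
    (hd : ∀ z, ‖z‖ = c → ‖f z‖ ≤ φ * ‖g z‖) (hB : ∀ z, ‖z‖ = 1 / 2 → ‖g z‖ ≤ B) :
    ‖f 0‖ ≤ φ * 4 ^ N * B := by
  obtain ⟨u, G, hu1, hu2, hG, hG', he⟩ := h
  have h1 := half_bound u G hG fun z hz => by rw [← he z (by linarith)]; exact hB z hz
  have hsub : closedBall (0 : ℂ) c ⊆ ball 0 1 := closedBall_subset_ball hc1
  have hd' : DiffContOnCl ℂ (fun z => f z / G z) (ball 0 c) := by
    apply DifferentiableOn.diffContOnCl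
    rw [closure_ball _ hc0.ne']
    exact (hf.mono hsub).div (hG.mono hsub) fun z hz => hG' z (by simpa using hz)
  have h2 := norm_le_of_forall_mem_frontier_norm_le isBounded_ball hd' (C := φ * 2 ^ N)
    (fun z hz => by
      rw [frontier_ball _ hc0.ne'] at hz
      have hz' : ‖z‖ = c := by simpa using hz
      rw [norm_div, div_le_iff₀ (norm_pos_iff.2 (hG' z hz'.le))]
      refine (hd z hz').trans ?_
      rw [he z (by linarith), norm_mul, mul_assoc, ← hu1]
      gcongr
      exact rp_norm_le (fun x hx => by linarith [hu2 x hx]) (by linarith))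
    (z := 0) (subset_closure (by simpa using hc0))
  rw [norm_div, div_le_iff₀ (norm_pos_iff.2 (hG' 0 (by simpa using hc0.le)))] at h2
  rw [hu1] at h1
  calc ‖f 0‖ ≤ φ * 2 ^ N * ‖G 0‖ := h2
    _ ≤ φ * 2 ^ N * (2 ^ N * B) := by gcongr
    _ = φ * 4 ^ N * B := by rw [show (4 : ℝ) = 2 * 2 by norm_num, mul_pow]; ring

theorem Zc.rotate {g g' : ℂ → ℂ} {r : ℝ} {N : ℕ} (h : Zc g r r N) {a w : ℂ} (ha : a ≠ 0)
    (hw : ‖w‖ = 1) (he' : ∀ z, ‖z‖ < 1 → g' z = a * g (w * z)) : Zc g' r r N := by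
  obtain ⟨u, G, hu1, hu2, hG, hG', he⟩ := h
  have hw0 : w ≠ 0 := by rintro rfl; simp at hw
  have hn : ∀ z, ‖w * z‖ = ‖z‖ := fun z => by rw [norm_mul, hw, one_mul]
  have e : ∀ z, rp u (w * z) = w ^ u.length * rp (u.map fun x => w⁻¹ * x) z := by
    intro z
    clear hu1 hu2 he
    induction u with
    | nil => simp
    | cons x u ih =>
      simp only [List.map_cons, rp_cons, ih, List.length_cons]
      field_simp
      ring
  refine ⟨u.map fun x => w⁻¹ * x, fun z => a * w ^ u.length * G (w * z), by simpa using hu1,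
    fun x hx => ?_, ?_, fun z hz => mul_ne_zero (mul_ne_zero ha (pow_ne_zero _ hw0))
      (hG' _ (by rw [hn]; exact hz)), fun z hz => ?_⟩
  · obtain ⟨y, hy, rfl⟩ := List.mem_map.1 hx
    rw [norm_mul, norm_inv, hw, inv_one, one_mul]
    exact hu2 y hy
  · refine DifferentiableOn.mul (by fun_prop) (hG.comp (by fun_prop) fun z hz => ?_)
    rw [mem_ball_zero_iff, hn]
    simpa using hz
  · rw [he' z hz, he _ (by rw [hn]; exact hz), e]; ring

theorem Zc.reflect {g : ℂ → ℂ} {r : ℝ} {N : ℕ} (h : Zc g r r N) : Zc (refl g) r r N := by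
  obtain ⟨u, G, hu1, hu2, hG, hG', he⟩ := h
  have e : ∀ z, (starRingEnd ℂ) (rp u ((starRingEnd ℂ) z)) = rp (u.map (starRingEnd ℂ)) z := by
    intro z
    clear hu1 hu2 he
    induction u with
    | nil => simp
    | cons x u ih => simp only [List.map_cons, rp_cons, map_mul, ih, map_sub, conj_conj]
  refine ⟨u.map (starRingEnd ℂ), refl G, by simpa using hu1, fun x hx => ?_, ?_,
    fun z hz => ?_, fun z hz => ?_⟩
  · obtain ⟨y, hy, rfl⟩ := List.mem_map.1 hx
    rw [RCLike.norm_conj]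
    exact hu2 y hy
  · intro z hz
    have hz' : (starRingEnd ℂ) z ∈ ball (0 : ℂ) 1 := by simpa using hz
    have := (hG.differentiableAt (isOpen_ball.mem_nhds hz')).conj_conj
    rw [conj_conj] at this
    exact this.differentiableWithinAt
  · exact (map_ne_zero _).2 (hG' _ (by simpa using hz))
  · simp only [refl]
    rw [he _ (by simpa using hz), map_mul, e]

end Pool.Agent.P.MP_99f05c_an
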